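import Pool.Agent.Lib.MP_da63d3_lc.Defs

/-! Weighted instances, and their unweighted blow-ups. -/

namespace Pool.Agent.Lib.MP_da63d3_lc

open Relation

variable {W : Type}

theorem tg_map {V : Type} {R : V → V → Prop} {R' : W → W → Prop} (f : V → W)
    (h : ∀ a b, R a b → R' (f a) (f b)) {a b : V} (hab : TransGen R a b) :
    TransGen R' (f a) (f b) := by
  induction hab with
  | single h1 => exact TransGen.single (h _ _ h1)
  | tail _ h2 ih => exact ih.tail (h _ _ h2)

theorem tg_map_rev {V : Type} {R : V → V → Prop} {R' : W → W → Prop} (f : V → W)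
    (h : ∀ a b, R a b → R' (f b) (f a)) {a b : V} (hab : TransGen R a b) :
    TransGen R' (f b) (f a) := by
  induction hab with
  | single h1 => exact TransGen.single (h _ _ h1)
  | tail _ h2 ih => exact TransGen.head (h _ _ h2) ih

theorem rtg_map {V : Type} {R : V → V → Prop} {R' : W → W → Prop} (f : V → W)
    (h : ∀ a b, R a b → R' (f a) (f b)) {a b : V} (hab : ReflTransGen R a b) :
    ReflTransGen R' (f a) (f b) := by
  induction hab with
  | refl => exact ReflTransGen.refl
  | tail _ h2 ih => exact ih.tail (h _ _ h2)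

theorem rtg_map_rev {V : Type} {R : V → V → Prop} {R' : W → W → Prop} (f : V → W)
    (h : ∀ a b, R a b → R' (f b) (f a)) {a b : V} (hab : ReflTransGen R a b) :
    ReflTransGen R' (f b) (f a) := by
  induction hab with
  | refl => exact ReflTransGen.refl
  | tail _ h2 ih => exact ReflTransGen.head (h _ _ h2) ih

/-- The weighted problem: vertices of weight zero are absent. -/
def WYes (wt : W → ℕ) (adj : W → W → Prop) (K : ℕ) : Prop :=
  ∃ X : Finset W, ∑ u ∈ X, wt u ≤ K ∧
    ∀ u, ¬ TransGen (fun a b => (0 < wt a ∧ a ∉ X) ∧ (0 < wt b ∧ b ∉ X) ∧ adj a b) u u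

/-- Out-neighbour lists of the digraph on the positions of the list `vs`. -/
def mkAdj (vs : List W) (d : W) (adj : W → W → Bool) : List (List ℕ) :=
  vs.map fun u => (List.range vs.length).filter fun j => adj u (vs.getD j d)

theorem length_mkAdj (vs : List W) (d : W) (adj : W → W → Bool) :
    (mkAdj vs d adj).length = vs.length := by simp [mkAdj]

theorem adj_mkAdj (vs : List W) (d : W) (adj : W → W → Bool) (i j : Fin (mkAdj vs d adj).length) :
    (digraphOf (mkAdj vs d adj)).Adj i j ↔ i ≠ j ∧ adj (vs.getD i d) (vs.getD j d) = true := by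
  have hi : (i : ℕ) < vs.length := i.2.trans_eq (length_mkAdj _ _ _)
  have hj : (j : ℕ) < vs.length := j.2.trans_eq (length_mkAdj _ _ _)
  simp [digraphOf, mkAdj, List.getD_eq_getElem?_getD, hi, hj]

theorem count_eq_card [DecidableEq W] (vs : List W) (d : W) (n : ℕ) (hn : n = vs.length) (u : W) :
    vs.count u = (Finset.univ.filter fun i : Fin n => vs.getD i d = u).card := by
  subst hn
  have h1 : vs.count u = (List.ofFn fun i : Fin vs.length => vs.getD i d).count u := by
    congr 1
    apply List.ext_getElem (by simp)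
    intro i h1 h2
    simp [List.getD_eq_getElem?_getD]
  rw [h1, List.ofFn_eq_map, List.count_eq_countP, List.countP_map, List.countP_eq_length_filter,
    Finset.card_def, Finset.filter_val]
  simp only [Finset.univ, Fintype.elems, Multiset.filter_coe, Multiset.coe_card]
  congr 1

theorem yes_mkAdj [DecidableEq W] (vs : List W) (d : W) (adj : W → W → Bool) (wt : W → ℕ)
    (R : W → W → Prop) (hR : ∀ a b, adj a b = true ↔ R a b) (hirr : ∀ a, ¬ R a a)
    (hwt : ∀ u, vs.count u = wt u) (k : List Bool) :
    Yes (mkAdj vs d adj, k) ↔ WYes wt R k.length := by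
  classical
  set n := (mkAdj vs d adj).length with hn
  have hc : ∀ u, wt u = (Finset.univ.filter fun i : Fin n => vs.getD i d = u).card := fun u =>
    (hwt u).symm.trans (count_eq_card vs d n (length_mkAdj _ _ _) u)
  constructor
  · rintro ⟨S, hS, hac⟩
    let X : Finset W := (S.image fun i : Fin n => vs.getD i d).filter
      fun u => ∀ i : Fin n, vs.getD i d = u → i ∈ S
    refine ⟨X, ?_, ?_⟩
    · refine le_trans ?_ hS
      rw [Finset.card_eq_sum_card_fiberwise (f := fun i : Fin n => vs.getD i d)
        (t := S.image fun i : Fin n => vs.getD i d)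
        (fun i hi => Finset.mem_coe.2 (Finset.mem_image_of_mem _ hi))]
      refine le_trans (Finset.sum_le_sum (g := fun u =>
        (S.filter fun i : Fin n => vs.getD i d = u).card) fun u hu => ?_)
        (Finset.sum_le_sum_of_subset (Finset.filter_subset _ _))
      rw [hc]
      refine Finset.card_le_card fun i hi => ?_
      have h1 := (Finset.mem_filter.1 hi).2
      exact Finset.mem_filter.2 ⟨(Finset.mem_filter.1 hu).2 i h1, h1⟩
    · have hrep : ∀ u, 0 < wt u ∧ u ∉ X → ∃ i : Fin n, vs.getD i d = u ∧ i ∉ S := by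
        rintro u ⟨h1, h2⟩
        by_contra hcon
        push Not at hcon
        rw [hc] at h1
        obtain ⟨i, hi⟩ := Finset.card_pos.1 h1
        have h3 := (Finset.mem_filter.1 hi).2
        exact h2 (Finset.mem_filter.2 ⟨Finset.mem_image.2 ⟨i, hcon i h3, h3⟩, hcon⟩)
      intro u hu
      obtain ⟨b, hb, -⟩ := TransGen.head'_iff.1 hu
      obtain ⟨i0, -⟩ := hrep u hb.1
      have : Nonempty (Fin n) := ⟨i0⟩
      choose! rep hrep1 hrep2 using hrep
      refine hac (rep u) (tg_map rep (fun a b hab => ?_) hu)
      obtain ⟨ha, hb, hab⟩ := hab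
      refine ⟨hrep2 a ha, hrep2 b hb, (adj_mkAdj vs d adj _ _).2 ⟨fun h => ?_, ?_⟩⟩
      · have : a = b := by rw [← hrep1 a ha, ← hrep1 b hb, h]
        exact hirr a (this ▸ hab)
      · rw [hrep1 a ha, hrep1 b hb]
        exact (hR a b).2 hab
  · rintro ⟨X, hX, hac⟩
    refine ⟨Finset.univ.filter fun i : Fin n => vs.getD i d ∈ X, le_trans ?_ hX, ?_⟩
    · rw [Finset.card_eq_sum_card_fiberwise (f := fun i : Fin n => vs.getD i d) (t := X)
        (fun i hi => Finset.mem_coe.2 (Finset.mem_filter.1 hi).2)]
      refine Finset.sum_le_sum fun u _ => ?_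
      rw [hc]
      exact Finset.card_le_card fun i hi =>
        Finset.mem_filter.2 ⟨Finset.mem_univ _, (Finset.mem_filter.1 hi).2⟩
    · intro i hi
      have hpos : ∀ i : Fin n, 0 < wt (vs.getD i d) := fun i => by
        rw [hc]
        exact Finset.card_pos.2 ⟨i, Finset.mem_filter.2 ⟨Finset.mem_univ _, rfl⟩⟩
      refine hac (vs.getD i d) (tg_map (fun i : Fin n => vs.getD i d)
        (fun a b hab => ?_) hi)
      obtain ⟨ha, hb, hab⟩ := hab
      refine ⟨⟨hpos a, fun h => ha ?_⟩, ⟨hpos b, fun h => hb ?_⟩,
        (hR _ _).1 ((adj_mkAdj vs d adj _ _).1 hab).2⟩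
      · exact Finset.mem_filter.2 ⟨Finset.mem_univ _, h⟩
      · exact Finset.mem_filter.2 ⟨Finset.mem_univ _, h⟩

/-- The list in which every element of `base` is repeated according to its weight. -/
def blow (base : List W) (wt : W → ℕ) : List W := base.flatMap fun u => List.replicate (wt u) u

theorem count_blow [DecidableEq W] (base : List W) (wt : W → ℕ) (hnd : base.Nodup) (u : W) :
    (blow base wt).count u = if u ∈ base then wt u else 0 := by
  induction base with
  | nil => simp [blow]
  | cons a t ih =>
    rw [List.nodup_cons] at hnd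
    have ih' := ih hnd.2
    unfold blow at ih' ⊢
    rw [List.flatMap_cons, List.count_append, ih', List.count_replicate]
    by_cases h : a = u
    · subst h
      simp [hnd.1]
    · have h' : ¬ u = a := fun e => h e.symm
      simp [h, h']

theorem acyclic_of_pot {α : Type} [Preorder α] {R : W → W → Prop} (f : W → α)
    (h : ∀ a b, R a b → f a < f b) (u : W) : ¬ TransGen R u u := by
  have : ∀ a b, TransGen R a b → f a < f b := by
    intro a b hab
    induction hab with
    | single h1 => exact h _ _ h1
    | tail _ h2 ih => exact ih.trans (h _ _ h2)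
  exact fun hu => lt_irrefl _ (this u u hu)

end Pool.Agent.Lib.MP_da63d3_lc
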