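import Pool.Agent.Lib.MP_da63d3_lc.Sat
import Pool.Agent.Shared.PolyTime.Extra

/-! Polynomial running time of the composition, and fixed-length descriptions of instances. -/

namespace Pool.Agent.Lib.MP_da63d3_lc

open N68a2faeb Pool.Agent.Shared.PolyTime N487b59b3

variable {α : Type} [N487b59b3 α]

@[fun_prop] theorem KK_pt {h k : α → ℕ} (hh : IsPolyTime h) (hk : IsPolyTime k) :
    IsPolyTime fun x => KK (h x) (k x) := by
  unfold KK; fun_prop

@[fun_prop] theorem KK_bd {h k : α → ℕ} (hh : PolyBdd h) (hk : PolyBdd k) :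
    PolyBdd fun x => KK (h x) (k x) := by
  unfold KK; fun_prop

@[fun_prop] theorem dd_pt {h r : α → ℕ} (hh : IsPolyTime h) (hb : PolyBdd h) (hr : IsPolyTime r) :
    IsPolyTime fun x => dd (h x) (r x) := by
  have : PolyBdd fun x => min (r x) (h x) := PolyBdd.min_right _ hb
  unfold dd; fun_prop

@[fun_prop] theorem valid_pt {h T N : α → ℕ} {u : α → HV}
    {inst : ∀ x, Decidable (valid (h x) (T x) (N x) (u x))} (hh : IsPolyTime h)
    (hT : IsPolyTime T) (hN : IsPolyTime N) (hu : IsPolyTime u) :
    IsPolyTime fun x => @decide (valid (h x) (T x) (N x) (u x)) (inst x) := by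
  unfold valid at inst ⊢; fun_prop

@[fun_prop] theorem wt_pt {h T N k : α → ℕ} {u : α → WV} (hh : IsPolyTime h)
    (hT : IsPolyTime T) (hN : IsPolyTime N) (hk : IsPolyTime k) (hu : IsPolyTime u) :
    IsPolyTime fun x => wt (h x) (T x) (N x) (k x) (u x) := by
  unfold wt; fun_prop

theorem wt_bd {h k : α → ℕ} (T N : α → ℕ) (u : α → WV) (hh : PolyBdd h) (hk : PolyBdd k) :
    PolyBdd fun x => wt (h x) (T x) (N x) (k x) (u x) := by
  unfold wt
  exact PolyBdd.ite (PolyBdd.ite (by fun_prop) (PolyBdd.ite (by fun_prop) (by fun_prop)))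
    (by fun_prop)

@[fun_prop] theorem feeds_pt {r j : α → ℕ} {u : α → HV}
    {inst : ∀ x, Decidable (feeds (r x) (j x) (u x))} (hr : IsPolyTime r)
    (hj : IsPolyTime j) (hu : IsPolyTime u) :
    IsPolyTime fun x => @decide (feeds (r x) (j x) (u x)) (inst x) := by
  unfold feeds at inst ⊢; fun_prop

@[fun_prop] theorem HA_pt {h T d : α → ℕ} {u v : α → HV}
    {inst : ∀ x, Decidable (HA (h x) (T x) (d x) (u x) (v x))} (hh : IsPolyTime h)
    (hT : IsPolyTime T) (hd : IsPolyTime d) (hu : IsPolyTime u) (hv : IsPolyTime v) :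
    IsPolyTime fun x => @decide (HA (h x) (T x) (d x) (u x) (v x)) (inst x) := by
  unfold HA at inst ⊢; fun_prop

@[fun_prop] theorem WA_pt {h T : α → ℕ} {e : α → Prop} {u v : α → WV}
    {inst : ∀ x, Decidable (WA (h x) (T x) (e x) (u x) (v x))} {inst' : ∀ x, Decidable (e x)}
    (hh : IsPolyTime h) (hb : PolyBdd h) (hT : IsPolyTime T)
    (he : IsPolyTime fun x => @decide (e x) (inst' x)) (hu : IsPolyTime u) (hv : IsPolyTime v) :
    IsPolyTime fun x => @decide (WA (h x) (T x) (e x) (u x) (v x)) (inst x) := by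
  unfold WA at inst ⊢; fun_prop

@[fun_prop] theorem lit_pt {φ : α → Fm} {u : α → ℕ} (hφ : IsPolyTime φ) (hu : IsPolyTime u) :
    IsPolyTime fun x => lit (φ x) (u x) := by
  unfold lit; fun_prop

@[fun_prop] theorem conf_pt {φ : α → Fm} {u v : α → ℕ}
    {inst : ∀ x, Decidable (conf (φ x) (u x) (v x))} (hφ : IsPolyTime φ) (hu : IsPolyTime u)
    (hv : IsPolyTime v) : IsPolyTime fun x => @decide (conf (φ x) (u x) (v x)) (inst x) := by
  unfold conf at inst ⊢; fun_prop

@[fun_prop] theorem box_pt {B : α → ℕ} (hB : IsPolyTime B) (hb : PolyBdd B) :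
    IsPolyTime fun x => box (B x) := by
  unfold box; fun_prop

theorem compose_pt {h T M : α → ℕ} {l : α → List Fm} (hh : IsPolyTime h) (hhb : PolyBdd h)
    (hT : IsPolyTime T) (hTb : PolyBdd T) (hM : IsPolyTime M) (hMb : PolyBdd M)
    (hl : IsPolyTime l) : IsPolyTime fun x => compose (h x) (T x) (M x) (l x) := by
  have h1 : IsPolyTime fun x =>
      blow (box (T x + 3 * M x + h x + 2)) (wt (h x) (T x) (3 * M x) (5 * M x)) := by
    unfold blow
    refine IsPolyTime.flatMap ?_ (by fun_prop)
    exact IsPolyTime.replicate (by fun_prop) (wt_bd _ _ _ (by fun_prop) (by fun_prop))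
      (by fun_prop)
  have h2 : ∀ L : α → List WV, IsPolyTime L → IsPolyTime fun x => mkAdj (L x) (false, 0, 0, 0)
      (fun a b => decide (WA (h x) (T x) (conf ((l x).getD a.2.2.1 []) a.2.2.2 b.2.2.2) a b)) := by
    intro L hL
    unfold mkAdj
    refine IsPolyTime.map ?_ hL
    refine IsPolyTime.filter ?_ (by fun_prop)
    exact WA_pt (inst' := fun _ => inferInstance) (by fun_prop) (by fun_prop) (by fun_prop)
      (by fun_prop) (by fun_prop) (by fun_prop)
  unfold compose
  exact (h2 _ h1).pair (by fun_prop)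

/-- The description of an instance with at most `P` vertices. -/
def key (P : ℕ) (I : Inst) : List Bool :=
  (List.range P).map (fun i => decide (i < I.1.length)) ++
    ((List.range P).map (fun i => decide (i < I.2.length)) ++
      ((List.range P).product (List.range P)).map fun p => decide (p.2 ∈ I.1.getD p.1 []))

theorem length_key (P : ℕ) (I : Inst) : (key P I).length = P + (P + P * P) := by
  have : ((List.range P).product (List.range P)).length = P * P := by
    have := List.length_product (List.range P) (List.range P)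
    rw [List.length_range] at this
    exact this
  simp [key, this]

@[fun_prop] theorem key_pt {P : α → ℕ} {I : α → Inst}
    (hP : IsPolyTime P) (hb : PolyBdd P) (hI : IsPolyTime I) :
    IsPolyTime fun x => key (P x) (I x) := by
  unfold key; fun_prop

theorem key_len_inj {P Q : ℕ} {I J : Inst} (h : key P I = key Q J) : P = Q := by
  have h1 := congrArg List.length h
  rw [length_key, length_key] at h1
  rcases lt_trichotomy P Q with h2 | h2 | h2
  · have := Nat.mul_le_mul h2.le h2.le
    omega
  · exact h2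
  · have := Nat.mul_le_mul h2.le h2.le
    omega

theorem unary_inj {P a b : ℕ}
    (h : (List.range P).map (fun i => decide (i < a)) =
      (List.range P).map (fun i => decide (i < b))) : min a P = min b P := by
  rw [List.map_inj_left] at h
  rcases lt_trichotomy (min a P) (min b P) with hab | hab | hab
  · have := h a (List.mem_range.2 (by omega))
    simp only [lt_self_iff_false, decide_false, false_eq_decide_iff] at this
    omega
  · exact hab
  · have := h b (List.mem_range.2 (by omega))
    simp only [lt_self_iff_false, decide_false, decide_eq_false_iff_not] at this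
    omega

theorem yes_of_key {P : ℕ} {I J : Inst} (hI : I.1.length ≤ P) (hJ : J.1.length ≤ P)
    (h : key P I = key P J) (hy : Yes I) : Yes J := by
  unfold key at h
  obtain ⟨h1, h⟩ := List.append_inj h (by simp)
  obtain ⟨h2, h3⟩ := List.append_inj h (by simp)
  have e1 := unary_inj h1
  have e2 := unary_inj h2
  rw [List.map_inj_left] at h3
  have e3 : ∀ u < P, ∀ v < P, v ∈ J.1.getD u [] → v ∈ I.1.getD u [] := by
    intro u hu v hv huv
    have := h3 (u, v) (List.pair_mem_product.2 ⟨List.mem_range.2 hu, List.mem_range.2 hv⟩)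
    simp only [huv, decide_true, decide_eq_true_eq] at this
    exact this
  have key : ∀ (n m : ℕ) (A B : List (List ℕ)) (k k' : ℕ), n = m → min k n ≤ k' →
      (∀ u < n, ∀ v < n, v ∈ B.getD u [] → v ∈ A.getD u []) →
      (∃ S : Finset (Fin n), S.card ≤ k ∧ ∀ v, ¬ Relation.TransGen
        (fun a b : Fin n => a ∉ S ∧ b ∉ S ∧ a ≠ b ∧ (b : ℕ) ∈ A.getD a []) v v) →
      ∃ S : Finset (Fin m), S.card ≤ k' ∧ ∀ v, ¬ Relation.TransGen
        (fun a b : Fin m => a ∉ S ∧ b ∉ S ∧ a ≠ b ∧ (b : ℕ) ∈ B.getD a []) v v := by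
    rintro n _ A B k k' rfl hk hAB ⟨S, hS, hac⟩
    have hc : S.card ≤ n := by simpa using Finset.card_le_univ S
    refine ⟨S, by omega, fun v hv => hac v (tg_map id (fun a b hab => ?_) hv)⟩
    exact ⟨hab.1, hab.2.1, hab.2.2.1, hAB _ a.2 _ b.2 hab.2.2.2⟩
  exact key _ _ I.1 J.1 I.2.length J.2.length (by omega) (by omega)
    (fun u hu v hv => e3 u (by omega) v (by omega)) hy

end Pool.Agent.Lib.MP_da63d3_lc
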