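import Pool.Agent.Lib.MP_da63d3_lc.Many
import Pool.Agent.Lib.MP_da63d3_lc.Poly

/-! The reduction from Clique. -/

namespace Pool.Agent.Lib.MP_da63d3_lc

open N68a2faeb Pool.Agent.Shared.PolyTime N487b59b3

theorem vv_sum (h : ℕ) (x : ℕ → ℕ) (r : ℕ) (hr : r ≤ h) :
    vv h x r = ∑ s ∈ Finset.range r, if x s = 0 then 0 else 2 ^ s := by
  induction r with
  | zero => rfl
  | succ r ih =>
    have : r < h := by omega
    rw [Finset.sum_range_succ, ← ih (by omega), vv]
    simp [dd, this, this.le]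

theorem vv_lb (b : ℕ) (x : ℕ × ℕ → ℕ) (g : ℕ × ℕ) :
    vv (b + b) (fun r => x (lb b g r)) (b + b) =
      vv b (fun r => x (g.1, r)) b + 2 ^ b * vv b (fun r => x (g.2, r)) b := by
  rw [vv_sum _ _ _ le_rfl, vv_sum _ _ _ le_rfl, vv_sum _ _ _ le_rfl, Finset.sum_range_add,
    Finset.mul_sum]
  congr 1
  · exact Finset.sum_congr rfl fun s hs => by rw [lb, if_pos (Finset.mem_range.1 hs)]
  · refine Finset.sum_congr rfl fun s _ => ?_
    rw [lb, if_neg (show ¬ b + s < b by omega), Nat.add_sub_cancel_left, pow_add]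
    split_ifs <;> simp

/-- The value `c` does not code an admissible pair of vertices for the copy `g`. -/
def bad (A : List (List ℕ)) (B : ℕ) (g : ℕ × ℕ) (c : ℕ) : Prop :=
  ¬ (c % B < A.length ∧ (g.1 = g.2 ∨
    (c % B ≠ c / B ∧ (c / B ∈ A.getD (c % B) [] ∨ c % B ∈ A.getD (c / B) []))))

instance (A : List (List ℕ)) (B : ℕ) (g : ℕ × ℕ) (c : ℕ) : Decidable (bad A B g c) := by
  unfold bad; infer_instance

theorem not_bad {A : List (List ℕ)} {B u v : ℕ} (g : ℕ × ℕ) (hu : u < B) :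
    ¬ bad A B g (u + B * v) ↔
      u < A.length ∧ (g.1 = g.2 ∨ (u ≠ v ∧ (v ∈ A.getD u [] ∨ u ∈ A.getD v []))) := by
  rw [bad, not_not, Nat.add_mul_mod_self_left, Nat.mod_eq_of_lt hu,
    Nat.add_mul_div_left _ _ (by omega), Nat.div_eq_of_lt hu, zero_add]

theorem clique_iff {A : List (List ℕ)} {b : ℕ} (hb : A.length ≤ 2 ^ b) (k : ℕ) :
    ¬ (SimpleGraph.fromRel (digraphOf A).Adj).CliqueFree k ↔
      ∃ x : ℕ × ℕ → ℕ, ∀ g : ℕ × ℕ, g.1 < k → g.2 < k →
        ¬ bad A (2 ^ b) g (vv (b + b) (fun r => x (lb b g r)) (b + b)) := by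
  simp only [vv_lb, not_bad _ (vv_lt b _ b (Nat.le_succ b))]
  rw [SimpleGraph.not_cliqueFree_iff_top_isContained]
  constructor
  · rintro ⟨f⟩
    let v : ℕ → ℕ := fun i => if hi : i < k then f ⟨i, hi⟩ else 0
    have hv : ∀ i (hi : i < k), vv b (fun r => v i / 2 ^ r % 2) b = f ⟨i, hi⟩ := by
      intro i hi
      rw [vv_bits b _ b le_rfl, show v i = f ⟨i, hi⟩ from dif_pos hi,
        Nat.mod_eq_of_lt ((f ⟨i, hi⟩).2.trans_le hb)]
    refine ⟨fun l => v l.1 / 2 ^ l.2 % 2, fun g g1 g2 => ?_⟩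
    dsimp only
    rw [hv _ g1, hv _ g2]
    refine ⟨(f _).2, (eq_or_ne g.1 g.2).imp_right fun hne => ?_⟩
    have h1 : (SimpleGraph.fromRel (digraphOf A).Adj).Adj (f ⟨g.1, g1⟩) (f ⟨g.2, g2⟩) :=
      f.toHom.map_rel (show (SimpleGraph.completeGraph (Fin k)).Adj ⟨g.1, g1⟩ ⟨g.2, g2⟩
        from fun e => hne (congrArg Fin.val e))
    rw [SimpleGraph.fromRel_adj] at h1
    exact ⟨fun e => h1.1 (Fin.ext e), h1.2.imp And.right And.right⟩
  · rintro ⟨x, hx⟩
    let f : Fin k → Fin A.length := fun i =>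
      ⟨vv b (fun r => x (i, r)) b, (hx (i, i) i.2 i.2).1⟩
    have hf : ∀ i j, i ≠ j → (SimpleGraph.fromRel (digraphOf A).Adj).Adj (f i) (f j) := by
      intro i j hij
      obtain ⟨h1, h2⟩ := (hx (i, j) i.2 j.2).2.resolve_left fun e => hij (Fin.ext e)
      have h3 : f i ≠ f j := fun e => h1 (congrArg Fin.val e)
      rw [SimpleGraph.fromRel_adj]
      exact ⟨h3, h2.imp (fun h => ⟨h3, h⟩) fun h => ⟨h3.symm, h⟩⟩
    refine ⟨⟨⟨f, fun {i j} => hf i j⟩, fun i j e => ?_⟩⟩
    by_contra hij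
    exact (hf i j hij).ne e

/-- The box of candidate vertices. -/
def gbox (k B : ℕ) : List GV := ((List.range k).product (List.range k)).product (box B)

theorem nodup_gbox (k B : ℕ) : (gbox k B).Nodup :=
  List.Nodup.product (List.Nodup.product List.nodup_range List.nodup_range) (nodup_box B)

theorem mem_gbox {k B : ℕ} {a : GV} : a ∈ gbox k B ↔ (a.1.1 < k ∧ a.1.2 < k) ∧ a.2 ∈ box B := by
  obtain ⟨⟨i, j⟩, u⟩ := a
  rw [gbox, List.pair_mem_product, List.pair_mem_product, List.mem_range, List.mem_range]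

instance (h T b : ℕ) (e : Prop) [Decidable e] (a a' : GV) : Decidable (GA h T b e a a') := by
  unfold GA; infer_instance

/-- The instance built from the lists `A`, with `b` bits per vertex and `k` vertices to choose. -/
def build (A : List (List ℕ)) (b T B k : ℕ) : Inst :=
  (mkAdj (blow (gbox k (T + (b + b) + 2)) (gw (b + b) T k)) ((0, 0), false, 0, 0, 0)
    (fun a a' => decide (GA (b + b) T b (bad A B a.1 a.2.2.2.1) a a')),
    List.replicate (bud (b + b) k) false)

theorem yes_build (A : List (List ℕ)) (b B k : ℕ) : Yes (build A b (2 ^ (b + b)) B k) ↔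
    ∃ x : ℕ × ℕ → ℕ, ∀ g : ℕ × ℕ, g.1 < k → g.2 < k →
      ¬ bad A B g (vv (b + b) (fun r => x (lb b g r)) (b + b)) := by
  unfold build
  rw [yes_mkAdj _ _ _ (gw (b + b) (2 ^ (b + b)) k)
    (fun a a' => GA (b + b) (2 ^ (b + b)) b (bad A B a.1 a.2.2.2.1) a a')
    (fun a b => by simp) (fun a => GA_irrefl _ _ _ _ _), List.length_replicate]
  · exact ⟨many_sound, fun ⟨x, hx⟩ => many_complete x hx⟩
  intro u
  rw [count_blow _ _ (nodup_gbox _ _)]
  split_ifs with hu
  · rfl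
  · by_contra hcon
    obtain ⟨h1, h2, h3, -⟩ := gw_pos.1 (Nat.pos_of_ne_zero fun e => hcon e.symm)
    refine hu (mem_gbox.2 ⟨⟨h1, h2⟩, mem_box.2 ?_⟩)
    unfold valid at h3
    have h4 : 0 < 2 ^ (b + b) := by positivity
    generalize 2 ^ (b + b) = T at h3 h4 ⊢
    omega

variable {α : Type} [N487b59b3 α]

@[fun_prop] theorem bud_pt {h k : α → ℕ} (hh : IsPolyTime h) (hk : IsPolyTime k) :
    IsPolyTime fun x => bud (h x) (k x) := by
  unfold bud; fun_prop

@[fun_prop] theorem bud_bd {h k : α → ℕ} (hh : PolyBdd h) (hk : PolyBdd k) :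
    PolyBdd fun x => bud (h x) (k x) := by
  unfold bud; fun_prop

@[fun_prop] theorem lb_pt {b r : α → ℕ} {g : α → ℕ × ℕ} (hb : IsPolyTime b) (hg : IsPolyTime g)
    (hr : IsPolyTime r) : IsPolyTime fun x => lb (b x) (g x) (r x) := by
  unfold lb; fun_prop

@[fun_prop] theorem pres_pt {h T k : α → ℕ} {u : α → GV}
    {inst : ∀ x, Decidable (pres (h x) (T x) (k x) (u x))} (hh : IsPolyTime h)
    (hT : IsPolyTime T) (hk : IsPolyTime k) (hu : IsPolyTime u) :
    IsPolyTime fun x => @decide (pres (h x) (T x) (k x) (u x)) (inst x) := by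
  unfold pres at inst ⊢; fun_prop

@[fun_prop] theorem gw_pt {h T k : α → ℕ} {u : α → GV} (hh : IsPolyTime h)
    (hT : IsPolyTime T) (hk : IsPolyTime k) (hu : IsPolyTime u) :
    IsPolyTime fun x => gw (h x) (T x) (k x) (u x) := by
  unfold gw; fun_prop

theorem gw_bd {h k : α → ℕ} (T : α → ℕ) (u : α → GV) (hh : PolyBdd h) (hk : PolyBdd k) :
    PolyBdd fun x => gw (h x) (T x) (k x) (u x) := by
  unfold gw
  exact PolyBdd.ite (PolyBdd.ite (by fun_prop) (by fun_prop)) (by fun_prop)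

theorem bad_pt {A : α → List (List ℕ)} {B c : α → ℕ} {g : α → ℕ × ℕ}
    {inst : ∀ x, Decidable (bad (A x) (B x) (g x) (c x))} (hA : IsPolyTime A)
    (hB : IsPolyTime B) (hg : IsPolyTime g) (hc : IsPolyTime c) :
    IsPolyTime fun x => @decide (bad (A x) (B x) (g x) (c x)) (inst x) := by
  unfold bad at inst ⊢; fun_prop

theorem GA_pt {h T b : α → ℕ} {e : α → Prop} {u v : α → GV}
    {inst : ∀ x, Decidable (GA (h x) (T x) (b x) (e x) (u x) (v x))} {inst' : ∀ x, Decidable (e x)}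
    (hh : IsPolyTime h) (hhb : PolyBdd h) (hT : IsPolyTime T) (hb : IsPolyTime b)
    (he : IsPolyTime fun x => @decide (e x) (inst' x)) (hu : IsPolyTime u) (hv : IsPolyTime v) :
    IsPolyTime fun x => @decide (GA (h x) (T x) (b x) (e x) (u x) (v x)) (inst x) := by
  have h1 : IsPolyTime fun x => decide (WA (h x) (T x) (e x) (u x).2 (v x).2) :=
    WA_pt hh hhb hT he (by fun_prop) (by fun_prop)
  unfold GA at inst ⊢; fun_prop

theorem build_pt {A : α → List (List ℕ)} {b T B k : α → ℕ} (hA : IsPolyTime A) (hb : IsPolyTime b)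
    (hbb : PolyBdd b) (hT : IsPolyTime T) (hTb : PolyBdd T) (hB : IsPolyTime B) (hk : IsPolyTime k)
    (hkb : PolyBdd k) : IsPolyTime fun x => build (A x) (b x) (T x) (B x) (k x) := by
  have h1 : IsPolyTime fun x =>
      blow (gbox (k x) (T x + (b x + b x) + 2)) (gw (b x + b x) (T x) (k x)) := by
    unfold blow gbox
    refine IsPolyTime.flatMap ?_ (by fun_prop)
    exact IsPolyTime.replicate (by fun_prop) (gw_bd _ _ (by fun_prop) (by fun_prop)) (by fun_prop)
  have h2 : ∀ L : α → List GV, IsPolyTime L → IsPolyTime fun x =>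
      mkAdj (L x) ((0, 0), false, 0, 0, 0) (fun a a' =>
        decide (GA (b x + b x) (T x) (b x) (bad (A x) (B x) a.1 a.2.2.2.1) a a')) := by
    intro L hL
    unfold mkAdj
    refine IsPolyTime.map ?_ hL
    refine IsPolyTime.filter ?_ (by fun_prop)
    exact GA_pt (inst' := fun _ => inferInstance) (by fun_prop) (by fun_prop) (by fun_prop)
      (by fun_prop) (bad_pt (by fun_prop) (by fun_prop) (by fun_prop) (by fun_prop)) (by fun_prop)
      (by fun_prop)
  unfold build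
  exact (h2 _ h1).pair (by fun_prop)

theorem clique_ppt : ∃ red : Inst → Inst, IsPolyTime red ∧ ∀ I : Inst,
    (¬ (SimpleGraph.fromRel (digraphOf I.1).Adj).CliqueFree I.2.length ↔ Yes (red I)) ∧
      (red I).2.length ≤ 5 * I.2.length ^ 2 * (2 * Nat.log 2 I.1.length + 3) := by
  refine ⟨fun I => build I.1 (Nat.log 2 I.1.length + 1)
    (2 ^ (Nat.log 2 I.1.length + 1 + (Nat.log 2 I.1.length + 1))) (2 ^ (Nat.log 2 I.1.length + 1))
    I.2.length, ?_, fun I => ⟨?_, ?_⟩⟩
  · refine build_pt (by fun_prop) (by fun_prop) (by fun_prop) (by fun_prop) ?_ (by fun_prop)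
      (by fun_prop) (by fun_prop)
    refine PolyBdd.of_le (g := fun I : Inst => 2 * (I.1.length + 1) * (2 * (I.1.length + 1)))
      (by fun_prop) fun I => ?_
    have h1 : 2 ^ (Nat.log 2 I.1.length + 1) ≤ 2 * (I.1.length + 1) := by
      have := Nat.pow_log_le_add_one 2 I.1.length
      rw [pow_succ]
      omega
    rw [pow_add]
    exact Nat.mul_le_mul h1 h1
  · rw [yes_build, clique_iff (Nat.lt_pow_succ_log_self one_lt_two _).le]
  · refine le_of_eq (List.length_replicate.trans ?_)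
    rw [bud]
    ring

end Pool.Agent.Lib.MP_da63d3_lc
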