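import Mathlib

/-! The covering lemma of Fortnow and Santhanam. -/

namespace Pool.Agent.Lib.MP_da63d3_lc

open Finset

variable {β K : Type}

theorem exists_popular [DecidableEq β] [DecidableEq K] {t : ℕ} (ht : 0 < t) (U : Finset β)
    (hU : U.Nonempty) (key : (Fin t → β) → K) (Ks : Finset K) (hKs : Ks.card ≤ 2 ^ t)
    (hkey : ∀ f, (∀ i, f i ∈ U) → key f ∈ Ks) :
    ∃ f₀, (∀ i, f₀ i ∈ U) ∧ ∃ C ⊆ U, U.card ≤ 2 * C.card ∧
      ∀ x ∈ C, ∃ f, (∀ i, f i ∈ U) ∧ key f = key f₀ ∧ ∃ i, f i = x := by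
  classical
  set C : K → Finset β := fun k => U.filter fun x =>
    ∃ f, (∀ i, f i ∈ U) ∧ key f = k ∧ ∃ i, f i = x with hC
  set P := Fintype.piFinset fun _ : Fin t => U with hP
  have hPne : P.Nonempty := Fintype.piFinset_nonempty.2 fun _ => hU
  obtain ⟨f₀, hf₀, hmax⟩ := exists_max_image P (fun f => (C (key f)).card) hPne
  refine ⟨f₀, Fintype.mem_piFinset.1 hf₀, C (key f₀), filter_subset _ _, ?_,
    fun x hx => (mem_filter.1 hx).2⟩
  have h1 : P.card ≤ (C (key f₀)).card ^ t * (P.image key).card := by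
    refine card_le_mul_card_image _ _ fun k hk => ?_
    obtain ⟨g, hg, rfl⟩ := mem_image.1 hk
    refine le_trans (card_le_card (t := Fintype.piFinset fun _ : Fin t => C (key g)) ?_) ?_
    · intro f hf
      obtain ⟨hf1, hf2⟩ := mem_filter.1 hf
      have hf3 := Fintype.mem_piFinset.1 hf1
      exact Fintype.mem_piFinset.2 fun i => mem_filter.2 ⟨hf3 i, f, hf3, hf2, i, rfl⟩
    · rw [Fintype.card_piFinset_const]
      exact Nat.pow_le_pow_left (hmax g hg) _
  have h2 : (P.image key).card ≤ 2 ^ t := by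
    refine le_trans (card_le_card fun k hk => ?_) hKs
    obtain ⟨g, hg, rfl⟩ := mem_image.1 hk
    exact hkey g (Fintype.mem_piFinset.1 hg)
  rw [hP, Fintype.card_piFinset_const] at h1
  have h3 : U.card ^ t ≤ (2 * (C (key f₀)).card) ^ t := by
    rw [mul_pow, mul_comm]
    exact h1.trans (Nat.mul_le_mul_left _ h2)
  exact (Nat.pow_le_pow_iff_left ht.ne').1 h3

theorem exists_cover {t : ℕ} (ht : 0 < t) (key : (Fin t → β) → K) (Ks : Finset K)
    (hKs : Ks.card ≤ 2 ^ t) (m : ℕ) (U : Finset β) (hm : U.card < 2 ^ m)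
    (hkey : ∀ f, (∀ i, f i ∈ U) → key f ∈ Ks) :
    ∃ F : List (Fin t → β), F.length ≤ m ∧ (∀ f₀ ∈ F, ∀ i, f₀ i ∈ U) ∧
      ∀ x ∈ U, ∃ f₀ ∈ F, ∃ f, (∀ i, f i ∈ U) ∧ key f = key f₀ ∧ ∃ i, f i = x := by
  classical
  induction m generalizing U with
  | zero =>
    have : U = ∅ := card_eq_zero.1 (by omega)
    subst this
    exact ⟨[], le_rfl, by simp, by simp⟩
  | succ m ih =>
    obtain rfl | hU := U.eq_empty_or_nonempty
    · exact ⟨[], by simp, by simp, by simp⟩
    obtain ⟨f₀, hf₀, C, hCU, hC, hcov⟩ := exists_popular ht U hU key Ks hKs hkey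
    obtain ⟨F, hF, hF1, hF2⟩ := ih (U \ C) (by rw [card_sdiff_of_subset hCU]; omega)
      (fun f hf => hkey f fun i => (mem_sdiff.1 (hf i)).1)
    refine ⟨f₀ :: F, by simpa using hF, ?_, fun x hx => ?_⟩
    · intro g hg i
      rcases List.mem_cons.1 hg with rfl | hg
      · exact hf₀ i
      · exact (mem_sdiff.1 (hF1 g hg i)).1
    · by_cases hxC : x ∈ C
      · exact ⟨f₀, by simp, hcov x hxC⟩
      · obtain ⟨g, hg, f, hf, h⟩ := hF2 x (mem_sdiff.2 ⟨hx, hxC⟩)
        exact ⟨g, by simp [hg], f, fun i => (mem_sdiff.1 (hf i)).1, h⟩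

/-- The bit strings of a given length. -/
theorem exists_strings (L : ℕ) :
    ∃ Ks : Finset (List Bool), Ks.card ≤ 2 ^ L ∧ ∀ w : List Bool, w.length = L → w ∈ Ks := by
  classical
  refine ⟨(univ : Finset (Fin L → Bool)).image List.ofFn, card_image_le.trans (by simp), ?_⟩
  rintro w rfl
  exact mem_image.2 ⟨w.get, mem_univ _, List.ofFn_get w⟩

theorem poly_le_two_pow (r : Polynomial ℕ) : ∀ C : ℕ, ∃ c, ∀ m ≥ c, C * r.eval m ≤ 2 ^ m := by
  induction r using Polynomial.induction_on' with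
  | add p q hp hq =>
    intro C
    obtain ⟨c1, h1⟩ := hp (2 * C)
    obtain ⟨c2, h2⟩ := hq (2 * C)
    refine ⟨max c1 c2, fun m hm => ?_⟩
    have h3 := h1 m (le_trans (le_max_left _ _) hm)
    have h4 := h2 m (le_trans (le_max_right _ _) hm)
    rw [Polynomial.eval_add, mul_add]
    rw [mul_assoc] at h3 h4
    omega
  | monomial n a =>
    intro C
    have h1 := tendsto_pow_const_div_const_pow_of_one_lt n (r := 2) (by norm_num)
    have h2 : (0 : ℝ) < 1 / ((C * a : ℕ) + 1) := by positivity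
    obtain ⟨c, hc⟩ := Filter.eventually_atTop.1 (h1.eventually (gt_mem_nhds h2))
    refine ⟨c, fun m hm => ?_⟩
    have h3 := hc m hm
    rw [div_lt_div_iff₀ (by positivity) (by positivity), one_mul] at h3
    have h4 : m ^ n * (C * a + 1) < 2 ^ m := by exact_mod_cast h3
    rw [Polynomial.eval_monomial]
    nlinarith [Nat.zero_le (m ^ n)]

end Pool.Agent.Lib.MP_da63d3_lc
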