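import Mathlib
import Pool.Prelude.Def_H_3587d628

/-!
Definitions for MP_da63d3_lc: Directed Feedback Vertex Set parameterized by the solution size,
polynomial kernels and the class coNP/poly.  Polynomial time, NP and coNP are the notions of the
prelude (multi-stack Turing machines acting on the binary codes of the prelude).
-/

namespace Pool.Agent.Lib.MP_da63d3_lc

open N68a2faeb N487b59b3

/-- The digraph given by out-neighbour lists `A`: its vertices are `0, …, A.length - 1`, and there
is an arc from `i` to `j` iff `i ≠ j` and `j` occurs in list number `i`. -/
def digraphOf (A : List (List ℕ)) : Digraph (Fin A.length) where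
  Adj i j := i ≠ j ∧ (j : ℕ) ∈ A.getD i []

/-- `S` is a directed feedback vertex set of `D`: the digraph `D - S` has no closed directed walk
of positive length, that is, it is acyclic. -/
def IsDFVS {V : Type} (D : Digraph V) (S : Finset V) : Prop :=
  ∀ v, ¬ Relation.TransGen (fun a b => a ∉ S ∧ b ∉ S ∧ D.Adj a b) v v

/-- An instance `(D, k)` of DFVS: out-neighbour lists, and the parameter `k` in unary, as the
length of a list. -/
abbrev Inst := List (List ℕ) × List Bool

/-- Yes-instances: `D` has a directed feedback vertex set of size at most `k`. -/
def Yes (I : Inst) : Prop :=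
  ∃ S : Finset (Fin I.1.length), S.card ≤ I.2.length ∧ IsDFVS (digraphOf I.1) S

/-- DFVS parameterized by `k` has a polynomial kernel: a polynomial-time map from instances
`(D, k)` to equivalent instances `(D', k')` in which `D'` has at most `p(k)` vertices. -/
def HasPolyKernel : Prop :=
  ∃ (p : Polynomial ℕ) (red : Inst → Inst), IsPolyTime red ∧
    ∀ I : Inst, (Yes I ↔ Yes (red I)) ∧ (red I).1.length ≤ p.eval I.2.length

/-- The class coNP/poly: languages decided by a language in coNP with the help of polynomially
long advice strings that depend only on the length of the input. -/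
def coNPpoly : DecisionComplexityClass :=
  {L | ∃ L' ∈ coNP, ∃ (p : Polynomial ℕ) (adv : ℕ → List Bool),
    (∀ n, (adv n).length ≤ p.eval n) ∧ ∀ x, L x = L' (bitEncode (x, adv x.length))}

end Pool.Agent.Lib.MP_da63d3_lc
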