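import Pool.Agent.Lib.MP_da63d3_lc.Blow

/-!
One half of the composition.  A vertex is a triple (kind, p, q).  Kinds: 0 the terminals `a p`,
1 the terminals `z p`, 2 the bit vertices, 3 and 4 the two selector paths of level `p`, 5 and 6 the
two kinds of block vertices of block `p`.
-/

namespace Pool.Agent.Lib.MP_da63d3_lc

open Relation

/-- Vertices of a half. -/
abbrev HV := ℕ × ℕ × ℕ

/-- `u` feeds index `j` of level `r`. -/
def feeds (r j : ℕ) (u : HV) : Prop :=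
  (u.1 = 0 ∧ u.2.1 = r ∧ j = 0) ∨ ((u.1 = 3 ∨ u.1 = 4) ∧ u.2.1 + 1 = r ∧ u.2.2 + 1 = j)

/-- The arcs of a half; `dv` is the jump of the level of `v`. -/
def HA (h T dv : ℕ) (u v : HV) : Prop :=
  ((u.1 = 0 ∨ u.1 = 1) ∧ v.1 = 0 ∧ v.2.1 = u.2.1 + 1) ∨
  (u.1 = 1 ∧ v.1 = 2 ∧ v.2.1 = u.2.1) ∨
  (u.1 = 2 ∧ v.1 = 0 ∧ v.2.1 = u.2.1) ∨
  (u.1 = 0 ∧ (v.1 = 3 ∨ v.1 = 4) ∧ u.2.1 = v.2.1 + 1 ∧ v.2.2 = 0) ∨
  ((u.1 = 3 ∨ u.1 = 4) ∧ v.1 = u.1 ∧ v.2.1 = u.2.1 ∧ v.2.2 = u.2.2 + 1) ∨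
  ((u.1 = 3 ∨ u.1 = 4) ∧ v.1 + 3 = u.1 ∧ v.2.1 = u.2.1 ∧ u.2.2 + 1 = T) ∨
  (v.1 = 3 ∧ feeds v.2.1 v.2.2 u) ∨
  (v.1 = 4 ∧ dv ≤ v.2.2 ∧ feeds v.2.1 (v.2.2 - dv) u) ∨
  (v.1 = 5 ∧ feeds (h + 1) v.2.1 u) ∨
  (v.1 = 6 ∧ feeds h v.2.1 u) ∨
  (u.1 = 5 ∧ v.1 = 6 ∧ v.2.1 = u.2.1 ∧ v.2.2 = u.2.2)

/-- The triples that are vertices. -/
def valid (h T N : ℕ) (u : HV) : Prop :=
  (u.1 = 0 ∧ u.2.1 ≤ h + 1 ∧ u.2.2 = 0) ∨ ((u.1 = 1 ∨ u.1 = 2) ∧ u.2.1 ≤ h ∧ u.2.2 = 0) ∨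
  ((u.1 = 3 ∨ u.1 = 4) ∧ u.2.1 ≤ h ∧ u.2.2 < T) ∨ ((u.1 = 5 ∨ u.1 = 6) ∧ u.2.1 < T ∧ u.2.2 < N)

theorem HA_irrefl (h T dv : ℕ) (u : HV) : ¬ HA h T dv u u := by
  unfold HA feeds
  rintro (h | h | h | h | h | h | h | h | h | h | h) <;> omega

theorem HA_sink (h dv : ℕ) {T k : ℕ} (r : ℕ) (hk : k = 3 ∨ k = 4) (hT : 0 < T) :
    HA h T dv (k, r, T - 1) (k - 3, r, 0) :=
  Or.inr (Or.inr (Or.inr (Or.inr (Or.inr (Or.inl (by dsimp only; omega))))))

theorem HA_up (h T dv : ℕ) {k : ℕ} (r : ℕ) (hk : k = 3 ∨ k = 4) :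
    HA h T dv (k - 3, r, 0) (0, r + 1, 0) :=
  Or.inl (by dsimp only; omega)

section sound

variable {h T : ℕ} {d : ℕ → ℕ} {al : HV → Prop}

/-- Arcs between surviving vertices. -/
def HR (h T : ℕ) (d : ℕ → ℕ) (al : HV → Prop) (u v : HV) : Prop :=
  al u ∧ al v ∧ HA h T (d v.2.1) u v

theorem walk_path {k r a b : ℕ} (hk : k = 3 ∨ k = 4) (hab : a ≤ b)
    (hal : ∀ i, a ≤ i → i ≤ b → al (k, r, i)) :
    ReflTransGen (HR h T d al) (k, r, a) (k, r, b) := by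
  induction b, hab using Nat.le_induction with
  | base => exact ReflTransGen.refl
  | succ b hab ih =>
    refine (ih fun i h1 h2 => hal i h1 (by omega)).tail
      ⟨hal b hab (by omega), hal (b + 1) (by omega) le_rfl, ?_⟩
    unfold HA
    simp [hk]

theorem path_dead (hac : ∀ u, ¬ TransGen (HR h T d al) u u) (hT : 0 < T)
    (hA : ∀ r ≤ h + 1, al (0, r, 0)) (hZ : ∀ r ≤ h, al (1, r, 0)) {k r : ℕ} (hk : k = 3 ∨ k = 4)
    (hr : r ≤ h) : ∃ i < T, ¬ al (k, r, i) := by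
  by_contra hcon
  push Not at hcon
  have h1 : HR h T d al (0, r + 1, 0) (k, r, 0) :=
    ⟨hA _ (by omega), hcon 0 hT, by unfold HA; simp [hk]⟩
  have h2 : ReflTransGen (HR h T d al) (k, r, 0) (k, r, T - 1) :=
    walk_path hk (by omega) fun i _ _ => hcon i (by omega)
  have h3 : al (k - 3, r, 0) := by
    rcases hk with rfl | rfl
    · exact hA r (by omega)
    · exact hZ r hr
  have h4 : HR h T d al (k, r, T - 1) (k - 3, r, 0) :=
    ⟨hcon _ (by omega), h3, HA_sink _ _ _ hk hT⟩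
  have h5 : HR h T d al (k - 3, r, 0) (0, r + 1, 0) :=
    ⟨h3, hA _ (by omega), HA_up _ _ _ _ hk⟩
  exact hac _ (TransGen.head' h1 ((h2.tail h4).tail h5))

theorem half_sound (hac : ∀ u, ¬ TransGen (HR h T d al) u u)
    (hA : ∀ r ≤ h + 1, al (0, r, 0)) (hZ : ∀ r ≤ h, al (1, r, 0))
    (hone : ∀ k r i i', (k = 3 ∨ k = 4) → r ≤ h → i < T → i' < T → ¬ al (k, r, i) →
      ¬ al (k, r, i') → i = i')
    (x : ℕ → ℕ) (hx : ∀ r ≤ h, x r ≠ 0 → al (2, r, 0)) (val : ℕ → ℕ) (h0 : val 0 = 0)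
    (hs : ∀ r, (x r = 0 ∧ val (r + 1) = val r) ∨ (x r ≠ 0 ∧ val (r + 1) = val r + d r))
    (hv : ∀ r ≤ h + 1, val r < T)
    (r : ℕ) (hr : r ≤ h + 1) :
    ∃ u, feeds r (val r) u ∧ al u ∧ ReflTransGen (HR h T d al) (0, r, 0) u := by
  induction r with
  | zero => exact ⟨(0, 0, 0), by unfold feeds; simp [h0], hA 0 (by omega), ReflTransGen.refl⟩
  | succ r ih =>
    obtain ⟨u, hu1, hu2, hu3⟩ := ih (by omega)
    have hvr := hv (r + 1) hr
    obtain ⟨k, hk, hk1, hk2⟩ : ∃ k, (k = 3 ∨ k = 4) ∧ HA h T (d r) u (k, r, val (r + 1)) ∧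
        ReflTransGen (HR h T d al) (k - 3, r, 0) (0, r, 0) := by
      rcases hs r with ⟨hxr, hsr⟩ | ⟨hxr, hsr⟩
      · refine ⟨3, Or.inl rfl, ?_, ReflTransGen.refl⟩
        rw [hsr]
        unfold HA
        simp [hu1]
      · refine ⟨4, Or.inr rfl, ?_, ?_⟩
        · rw [hsr]
          unfold HA
          simp [hu1]
        · have h1 := hx r (by omega) hxr
          have h2 : HR h T d al (1, r, 0) (2, r, 0) :=
            ⟨hZ r (by omega), h1, by unfold HA; simp⟩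
          have h3 : HR h T d al (2, r, 0) (0, r, 0) :=
            ⟨h1, hA r (by omega), by unfold HA; simp⟩
          exact (ReflTransGen.single h2).tail h3
    have h3 : al (k - 3, r, 0) := by
      rcases hk with rfl | rfl
      · exact hA r (by omega)
      · exact hZ r (by omega)
    obtain ⟨i, hi1, hi2, hi3⟩ : ∃ i, val (r + 1) ≤ i ∧ i < T ∧ ¬ al (k, r, i) := by
      by_contra hcon
      push Not at hcon
      have h1 : HR h T d al u (k, r, val (r + 1)) := ⟨hu2, hcon _ le_rfl hvr, hk1⟩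
      have h2 : ReflTransGen (HR h T d al) (k, r, val (r + 1)) (k, r, T - 1) :=
        walk_path hk (by omega) fun i hi _ => hcon i hi (by omega)
      have h4 : HR h T d al (k, r, T - 1) (k - 3, r, 0) :=
        ⟨hcon _ (by omega) (by omega), h3, HA_sink _ _ _ hk (by omega)⟩
      exact hac _ (TransGen.trans_left (TransGen.tail' hu3 h1) ((h2.tail h4).trans hk2))
    have hpre : ∀ j < val (r + 1), al (k, r, j) := by
      intro j hj
      by_contra hcon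
      have := hone k r j i hk (by omega) (by omega) hi2 hcon hi3
      omega
    rcases Nat.eq_zero_or_pos (val (r + 1)) with hz | hz
    · exact ⟨(0, r + 1, 0), by unfold feeds; simp [hz], hA _ hr, ReflTransGen.refl⟩
    · refine ⟨(k, r, val (r + 1) - 1), by unfold feeds; dsimp only; omega, hpre _ (by omega), ?_⟩
      have h1 : HR h T d al (0, r + 1, 0) (k, r, 0) :=
        ⟨hA _ hr, hpre 0 hz, by unfold HA; simp [hk]⟩
      exact ReflTransGen.head h1 (walk_path hk (by omega) fun j _ _ => hpre j (by omega))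

end sound

section complete

/-- The vertices of a half deleted by the intended solution, apart from those of kind 6.  The bit
of level `r` is zero iff `x r = 0`, and `q` belongs to the independent set iff `ι q = 0`. -/
def del (x val : ℕ → ℕ) (c : ℕ) (ι : ℕ → ℕ) (u : HV) : Prop :=
  (u.1 = 2 ∧ x u.2.1 = 0) ∨ (u.1 = 3 ∧ u.2.2 = val u.2.1) ∨
  (u.1 = 4 ∧ u.2.2 = val (u.2.1 + 1)) ∨ (u.1 = 5 ∧ u.2.1 = c ∧ ι u.2.2 ≠ 0)

/-- The first coordinate of the potential. -/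
def lab (h : ℕ) (d x val : ℕ → ℕ) (c : ℕ) (ι : ℕ → ℕ) (u : HV) : ℤ :=
  if u.1 = 0 then 3 * u.2.1
  else if u.1 = 1 then (if x u.2.1 = 0 then 3 * u.2.1 + 1 else 3 * u.2.1 - 2)
  else if u.1 = 2 then 3 * u.2.1 - 1
  else if u.1 = 3 then (if u.2.2 < val u.2.1 then 3 * u.2.1 + 3 else 3 * u.2.1 - 3)
  else if u.1 = 4 then (if u.2.2 < val (u.2.1 + 1) then 3 * u.2.1 + 3
    else if val (u.2.1 + 1) = val u.2.1 + d u.2.1 then 3 * u.2.1 - 3 else 3 * u.2.1)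
  else if u.1 = 5 then (if u.2.1 ≤ c then 3 * h + 3 else 3 * h - 3)
  else if u.2.1 < c ∨ (u.2.1 = c ∧ ι u.2.2 = 0) then 3 * h + 3
  else if u.2.1 = c then 3 * h else 3 * h - 3

/-- The second coordinate of the potential. -/
def rank (h : ℕ) (u : HV) : ℤ :=
  if u.1 ≤ 2 then 0 else if u.1 ≤ 4 then u.2.1 + 1 else h + u.1

variable (h : ℕ) (d x val : ℕ → ℕ) (c : ℕ) (ι : ℕ → ℕ) (p q : ℕ)

theorem lab0 : lab h d x val c ι (0, p, q) = 3 * p ∧ rank h (0, p, q) = 0 := by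
  simp [lab, rank]

theorem lab1 : ((x p = 0 ∧ lab h d x val c ι (1, p, q) = 3 * p + 1) ∨
    (x p ≠ 0 ∧ lab h d x val c ι (1, p, q) = 3 * p - 2)) ∧ rank h (1, p, q) = 0 := by
  by_cases h1 : x p = 0 <;> simp [lab, rank, h1]

theorem lab2 : lab h d x val c ι (2, p, q) = 3 * p - 1 ∧ rank h (2, p, q) = 0 := by
  simp [lab, rank]

theorem lab3 : ((q < val p ∧ lab h d x val c ι (3, p, q) = 3 * p + 3) ∨
    (val p ≤ q ∧ lab h d x val c ι (3, p, q) = 3 * p - 3)) ∧ rank h (3, p, q) = p + 1 := by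
  by_cases h1 : q < val p
  · simp [lab, rank, h1]
  · simp [lab, rank, h1, not_lt.1 h1]

theorem lab4 : ((q < val (p + 1) ∧ lab h d x val c ι (4, p, q) = 3 * p + 3) ∨
    (val (p + 1) ≤ q ∧ val (p + 1) = val p + d p ∧ lab h d x val c ι (4, p, q) = 3 * p - 3) ∨
    (val (p + 1) ≤ q ∧ val (p + 1) ≠ val p + d p ∧ lab h d x val c ι (4, p, q) = 3 * p)) ∧
    rank h (4, p, q) = p + 1 := by
  refine ⟨?_, by simp [rank]⟩
  by_cases h1 : q < val (p + 1)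
  · exact Or.inl ⟨h1, by simp [lab, h1]⟩
  · by_cases h2 : val (p + 1) = val p + d p
    · refine Or.inr (Or.inl ⟨not_lt.1 h1, h2, ?_⟩)
      simp only [lab, if_neg h1, if_pos h2]
      simp
    · refine Or.inr (Or.inr ⟨not_lt.1 h1, h2, ?_⟩)
      simp only [lab, if_neg h1, if_neg h2]
      simp

theorem lab5 : ((p ≤ c ∧ lab h d x val c ι (5, p, q) = 3 * h + 3) ∨
    (c < p ∧ lab h d x val c ι (5, p, q) = 3 * h - 3)) ∧ rank h (5, p, q) = h + 5 := by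
  by_cases h1 : p ≤ c
  · simp [lab, rank, h1]
  · simp [lab, rank, h1, not_le.1 h1]

theorem lab6 : (((p < c ∨ (p = c ∧ ι q = 0)) ∧ lab h d x val c ι (6, p, q) = 3 * h + 3) ∨
    (p = c ∧ ι q ≠ 0 ∧ lab h d x val c ι (6, p, q) = 3 * h) ∨
    (c < p ∧ lab h d x val c ι (6, p, q) = 3 * h - 3)) ∧ rank h (6, p, q) = h + 6 := by
  refine ⟨?_, by simp [rank]⟩
  by_cases h1 : p < c ∨ (p = c ∧ ι q = 0)
  · refine Or.inl ⟨h1, ?_⟩
    simp only [lab, if_pos h1]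
    simp
  · by_cases h2 : p = c
    · refine Or.inr (Or.inl ⟨h2, by omega, ?_⟩)
      simp only [lab, if_neg h1, if_pos h2]
      simp
    · refine Or.inr (Or.inr ⟨by omega, ?_⟩)
      simp only [lab, if_neg h1, if_neg h2]
      simp

theorem del2 : ¬ del x val c ι (2, p, q) ↔ x p ≠ 0 := by simp [del]
theorem del3 : ¬ del x val c ι (3, p, q) ↔ q ≠ val p := by simp [del]
theorem del4 : ¬ del x val c ι (4, p, q) ↔ q ≠ val (p + 1) := by simp [del]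
theorem del5 : ¬ del x val c ι (5, p, q) ↔ (p ≠ c ∨ ι q = 0) := by
  unfold del
  dsimp only
  omega

variable {h d x val c ι}

theorem half_complete {T : ℕ} (hd : d h = 0)
    (hs : ∀ r, (x r = 0 ∧ val (r + 1) = val r) ∨ (x r ≠ 0 ∧ val (r + 1) = val r + d r))
    (hv : ∀ r ≤ h + 1, val r < T) (hc : val h = c) {u v : HV} (hu : u.1 ≤ 4 → u.2.1 ≤ h + 1)
    (hu' : u.1 = 4 → u.2.1 ≤ h) (hdu : ¬ del x val c ι u) (hdv : ¬ del x val c ι v)
    (huv : HA h T (d v.2.1) u v) :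
    lab h d x val c ι u < lab h d x val c ι v ∨ (lab h d x val c ι u = lab h d x val c ι v ∧
      (rank h u < rank h v ∨ (rank h u = rank h v ∧ u.2.2 < v.2.2))) := by
  obtain ⟨k, p, q⟩ := u
  obtain ⟨k', p', q'⟩ := v
  have s1 := hs p
  have s2 := hs p'
  have s3 := hs h
  have v1 := hv p
  have v2 := hv (p + 1)
  have a0 := lab0 h d x val c ι
  have a1 := lab1 h d x val c ι
  have a2 := lab2 h d x val c ι
  have a3 := lab3 h d x val c ι
  have a4 := lab4 h d x val c ι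
  have a5 := lab5 h d x val c ι
  have a6 := lab6 h d x val c ι
  simp only [HA, feeds] at huv
  dsimp only at hu hu' ⊢
  rcases huv with ⟨rfl | rfl, rfl, rfl⟩ | ⟨rfl, rfl, rfl⟩ | ⟨rfl, rfl, rfl⟩ |
    ⟨rfl, rfl | rfl, rfl, rfl⟩ | ⟨rfl | rfl, rfl, rfl, rfl⟩ | ⟨rfl | rfl, hk', rfl, rfl⟩ |
    ⟨rfl, ⟨rfl, rfl, rfl⟩ | ⟨rfl | rfl, rfl, rfl⟩⟩ |
    ⟨rfl, h1, ⟨rfl, rfl, h2⟩ | ⟨rfl | rfl, rfl, h2⟩⟩ |
    ⟨rfl, ⟨rfl, rfl, rfl⟩ | ⟨rfl | rfl, h2, rfl⟩⟩ |
    ⟨rfl, ⟨rfl, rfl, rfl⟩ | ⟨rfl | rfl, rfl, rfl⟩⟩ | ⟨rfl, rfl, rfl, rfl⟩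
  · have := a0 p q; have := a0 (p + 1) q'; omega
  · have := a1 p q; have := a0 (p + 1) q'; omega
  · have := a1 p' q; have := a2 p' q'; rw [del2] at hdv; omega
  · have := a2 p' q; have := a0 p' q'; omega
  · have := a0 (p' + 1) q; have := a3 p' 0; rw [del3] at hdv; omega
  · have := a0 (p' + 1) q; have := a4 p' 0; rw [del4] at hdv; omega
  · have := a3 p' q; have := a3 p' (q + 1); rw [del3] at hdu hdv; omega
  · have := a4 p' q; have := a4 p' (q + 1); rw [del4] at hdu hdv; omega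
  · obtain rfl : k' = 0 := by omega
    have := a3 p' q; have := a0 p' q'; rw [del3] at hdu; omega
  · obtain rfl : k' = 1 := by omega
    have := a4 p' q; have := a1 p' q'; rw [del4] at hdu; omega
  · have := a0 p q; have := a3 p 0; rw [del3] at hdv; omega
  · have := a3 p q; have := a3 (p + 1) (q + 1); rw [del3] at hdu hdv; omega
  · have := a4 p q; have := a3 (p + 1) (q + 1); rw [del4] at hdu; rw [del3] at hdv; omega
  · have := a0 p q; have := a4 p q'; rw [del4] at hdv; omega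
  · have := a3 p q; have := a4 (p + 1) q'; rw [del3] at hdu; rw [del4] at hdv; omega
  · have := a4 p q; have := a4 (p + 1) q'; rw [del4] at hdu hdv; omega
  · have := a0 (h + 1) q; have := a5 0 q'; omega
  · obtain rfl : p = h := by omega
    have := a3 p q; have := a5 (q + 1) q'; rw [del3] at hdu; omega
  · obtain rfl : p = h := by omega
    have := a4 p q; have := a5 (q + 1) q'; rw [del4] at hdu; omega
  · have := a0 p q; have := a6 0 q'; omega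
  · have := a3 p q; have := a6 (q + 1) q'; rw [del3] at hdu; omega
  · have := a4 p q; have := a6 (q + 1) q'; rw [del4] at hdu; omega
  · have := a5 p' q'; have := a6 p' q'; rw [del5] at hdu; omega

end complete

end Pool.Agent.Lib.MP_da63d3_lc
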