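import Pool.Agent.Lib.MP_da63d3_lc.Poly
import Pool.Agent.Lib.MP_da63d3_lc.Cover
import Pool.Agent.Shared.PolyTime.NPComplete

/-! A polynomial kernel for DFVS puts NP into coNP/poly. -/

namespace Pool.Agent.Lib.MP_da63d3_lc

open N68a2faeb Pool.Agent.Shared.PolyTime N487b59b3

theorem KK_mono {h h' k k' : ℕ} (h1 : h ≤ h') (h2 : k ≤ k') : KK h k ≤ KK h' k' := by
  unfold KK
  gcongr

theorem exists_depth (p : Polynomial ℕ) : ∃ s : Polynomial ℕ, ∀ M, ∃ h,
    p.eval (KK h (5 * M)) + (p.eval (KK h (5 * M)) + p.eval (KK h (5 * M)) * p.eval (KK h (5 * M)))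
      ≤ 2 ^ h ∧ 2 ^ h ≤ s.eval M := by
  classical
  set F : ℕ → ℕ → ℕ := fun M h => p.eval (KK h (5 * M)) +
    (p.eval (KK h (5 * M)) + p.eval (KK h (5 * M)) * p.eval (KK h (5 * M))) with hF
  have hmono : ∀ M M' h h', M ≤ M' → h ≤ h' → F M h ≤ F M' h' := by
    intro M M' h h' h1 h2
    have h3 : p.eval (KK h (5 * M)) ≤ p.eval (KK h' (5 * M')) :=
      eval_mono p (KK_mono h2 (by omega))
    simp only [hF]
    gcongr
  have hP : Bdd (fun m : ℕ => m) fun m => p.eval (KK m (5 * m)) := by
    refine Bdd.eval ?_ p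
    unfold KK
    repeat' first | exact Bdd.refl _ | exact Bdd.const _ _ | apply Bdd.add | apply Bdd.mul
  obtain ⟨r, hr⟩ : Bdd (fun m : ℕ => m) fun m => F m m := hP.add (hP.add (hP.mul hP))
  obtain ⟨c, hc⟩ := poly_le_two_pow r 1
  refine ⟨2 * r.comp (Polynomial.X + Polynomial.C c) + 1, fun M => ?_⟩
  have h0 : F (M + c) (M + c) ≤ r.eval (M + c) := hr (M + c)
  have hex : F M (M + c) ≤ 2 ^ (M + c) := by
    have h1 := hc (M + c) (by omega)
    have h2 := hmono M (M + c) (M + c) (M + c) (by omega) le_rfl
    omega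
  have hex' : ∃ h, F M h ≤ 2 ^ h := ⟨_, hex⟩
  refine ⟨Nat.find hex', Nat.find_spec hex', ?_⟩
  have h3 : Nat.find hex' ≤ M + c := Nat.find_min' hex' hex
  simp only [Polynomial.eval_add, Polynomial.eval_mul, Polynomial.eval_ofNat, Polynomial.eval_comp,
    Polynomial.eval_X, Polynomial.eval_C, Polynomial.eval_one]
  rcases hz : Nat.find hex' with _ | h
  · simp
  · have h4 := Nat.find_min hex' (show h < Nat.find hex' by omega)
    have h5 := hmono M (M + c) h (M + c) (by omega) (by omega)
    rw [pow_succ]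
    omega

/-- The description of the kernel of the composition of the formulas of the strings in `l`. -/
def GG (p q : Polynomial ℕ) (red : Inst → Inst) (f : List Bool → Fm) (n : ℕ)
    (l : List (List Bool)) : List Bool :=
  key (p.eval (KK (Nat.log 2 l.length) (5 * q.eval n)))
    (red (compose (Nat.log 2 l.length) l.length (q.eval n) (l.map f)))

/-- The verifier. -/
noncomputable def ver (p q s : Polynomial ℕ) (red : Inst → Inst) (f : List Bool → Fm)
    (z : List Bool × List Bool) (l : List (List Bool)) : Bool :=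
  decide (bsize l ≤ s.eval z.1.length) && (bitDecode z.2 : Option (List (List Bool))).any fun es =>
    decide (z.1 ∈ l ∧ l.length = 2 ^ Nat.log 2 l.length ∧ GG p q red f z.1.length l ∈ es)

theorem ver_pt (p q s : Polynomial ℕ) {red : Inst → Inst} {f : List Bool → Fm}
    (hr : IsPolyTime red) (hf : IsPolyTime f) :
    IsPolyTime fun y : (List Bool × List Bool) × List (List Bool) => ver p q s red f y.1 y.2 := by
  have h1 : IsPolyTime fun y : List Bool × List (List Bool) => GG p q red f y.1.length y.2 := by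
    have b1 : IsPolyTime fun y : List Bool × List (List Bool) => y.2.map f :=
      IsPolyTime.map (hf.comp (by fun_prop)) (by fun_prop)
    have b2 : IsPolyTime fun y : List Bool × List (List Bool) =>
        compose (Nat.log 2 y.2.length) y.2.length (q.eval y.1.length) (y.2.map f) :=
      compose_pt (by fun_prop) (by fun_prop) (by fun_prop) (by fun_prop) (by fun_prop)
        (by fun_prop) b1
    unfold GG
    exact key_pt (by fun_prop) (by fun_prop) (hr.comp b2)
  unfold ver
  refine IsPolyTime.and (by fun_prop) (IsPolyTime.optionAny (by fun_prop) ?_)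
  have h2 : IsPolyTime fun y : ((List Bool × List Bool) × List (List Bool)) × List (List Bool) =>
      GG p q red f y.1.1.1.length y.1.2 :=
    h1.comp (g := fun y : ((List Bool × List Bool) × List (List Bool)) × List (List Bool) =>
      (y.1.1.1, y.1.2)) (by fun_prop)
  fun_prop

theorem np_subset_of_kernel (hk : HasPolyKernel) : NP ⊆ coNPpoly := by
  classical
  intro L hL
  obtain ⟨p, red, hred, H⟩ := hk
  obtain ⟨f, hf, hLf⟩ := npHard_sat3 L hL
  obtain ⟨q, hq⟩ : ∃ q : Polynomial ℕ, ∀ x, (f x).length ≤ q.eval x.length := by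
    obtain ⟨q, hq⟩ := PolyBdd.length hf
    refine ⟨q.comp (3 * Polynomial.X), fun x => ?_⟩
    have h1 := hq x
    rw [bsize_boolList] at h1
    simpa using h1
  obtain ⟨s0, hs0⟩ := exists_depth p
  have hget : ∀ (l : List (List Bool)) (j : ℕ) (hj : j < l.length), (l.map f).getD j [] = f l[j] := by
    intro l j hj
    rw [List.getD_eq_getElem _ _ (by simpa using hj), List.getElem_map]
  have hsize : ∀ h T M l, (red (compose h T M l)).1.length ≤ p.eval (KK h (5 * M)) := by
    intro h T M l
    have h1 := (H (compose h T M l)).2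
    rwa [show (compose h T M l).2.length = KK h (5 * M) from List.length_replicate] at h1
  have main : ∀ n, ∃ es : List (List Bool), es.length ≤ n + 1 ∧
      (∀ e ∈ es, e.length ≤ s0.eval (q.eval n) ∧
        ∃ P J, ¬ Yes J ∧ J.1.length ≤ P ∧ e = key P J) ∧
      ∀ x : List Bool, x.length = n → L x = false → ∃ l : List (List Bool),
        bsize l ≤ s0.eval (q.eval n) * (2 * (3 * n) + 1) ∧ x ∈ l ∧
        l.length = 2 ^ Nat.log 2 l.length ∧ GG p q red f n l ∈ es := by
    intro n
    obtain ⟨h, hh1, hh2⟩ := hs0 (q.eval n)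
    set P := p.eval (KK h (5 * q.eval n)) with hP
    obtain ⟨Ks, hKs, hKs'⟩ := exists_strings (P + (P + P * P))
    obtain ⟨Ws, hWs, hWs'⟩ := exists_strings n
    set U := Ws.filter fun x => x.length = n ∧ L x = false with hU
    have hcard : U.card < 2 ^ (n + 1) := by
      have : U.card ≤ Ws.card := Finset.card_filter_le _ _
      have := Nat.pow_lt_pow_right (a := 2) (by norm_num) (Nat.lt_succ_self n)
      omega
    have hG : ∀ g : Fin (2 ^ h) → List Bool, GG p q red f n (List.ofFn g) =
        key P (red (compose h (2 ^ h) (q.eval n) ((List.ofFn g).map f))) := by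
      intro g
      rw [GG, List.length_ofFn, Nat.log_pow (by norm_num)]
    obtain ⟨F, hF, hF1, hcov⟩ := exists_cover (t := 2 ^ h) (by positivity)
      (fun g => GG p q red f n (List.ofFn g)) Ks
      (hKs.trans (Nat.pow_le_pow_right (by norm_num) hh1)) (n + 1) U hcard
      (fun g _ => hKs' _ (by rw [hG, length_key]))
    refine ⟨F.map fun g => GG p q red f n (List.ofFn g), by simpa using hF, fun e he => ?_,
      fun x hx hx' => ?_⟩
    · obtain ⟨g, hg, rfl⟩ := List.mem_map.1 he
      rw [hG]
      refine ⟨by rw [length_key]; exact hh1.trans hh2, P, _, fun hy => ?_, hsize _ _ _ _, rfl⟩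
      have hg' : ∀ j (hj : j < 2 ^ h), ((List.ofFn g).map f).getD j [] = f (g ⟨j, hj⟩) := by
        intro j hj
        rw [hget _ j (by simpa using hj), List.getElem_ofFn]
      obtain ⟨j, hj, hsat⟩ := compose_no (fun j hj => by
        rw [hg' j hj, ← (Finset.mem_filter.1 (hF1 g hg ⟨j, hj⟩)).2.1]
        exact hq _) ((H _).1.2 hy)
      rw [hg' j hj, ← hLf, (Finset.mem_filter.1 (hF1 g hg ⟨j, hj⟩)).2.2] at hsat
      exact absurd hsat (by simp)
    · obtain ⟨g₀, hg₀, g, hg, hkey, i, hi⟩ := hcov x (Finset.mem_filter.2 ⟨hWs' x hx, hx, hx'⟩)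
      refine ⟨List.ofFn g, ?_, List.mem_ofFn.2 ⟨i, hi⟩, ?_, List.mem_map.2 ⟨g₀, hg₀, hkey.symm⟩⟩
      · refine (bsize_list_le _ (3 * n) fun y hy => ?_).trans ?_
        · obtain ⟨j, rfl⟩ := List.mem_ofFn.1 hy
          rw [bsize_boolList, (Finset.mem_filter.1 (hg j)).2.1]
        · rw [List.length_ofFn]
          exact Nat.mul_le_mul_right _ hh2
      · rw [List.length_ofFn, Nat.log_pow (by norm_num)]
  choose es h1 h2 h3 using main
  have hS : Bdd (fun m : ℕ => m) fun m => s0.eval (q.eval m) := ((Bdd.refl _).eval q).eval s0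
  obtain ⟨s, hs⟩ : Bdd (fun m : ℕ => m) fun m => s0.eval (q.eval m) * (2 * (3 * m) + 1) +
      (m + 1) * (2 * (3 * s0.eval (q.eval m)) + 1) := by
    repeat' first | exact hS | exact Bdd.refl _ | exact Bdd.const _ _ | apply Bdd.add | apply Bdd.mul
  let A : List Bool × List Bool → Prop := fun z => ∃ l, ver p q s red f z l = true
  have hA : langOf A ∈ NP := by
    refine langOf_mem_NP (β := List (List Bool)) (by fun_prop) (by fun_prop) (ver p q s red f)
      (ver_pt p q s hred hf) (fun z => s.eval z.1.length) (by fun_prop) ?_ fun z l hl => ⟨l, hl⟩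
    rintro z ⟨l, hl⟩
    refine ⟨l, ?_, hl⟩
    simp only [ver, Bool.and_eq_true, decide_eq_true_eq] at hl
    exact hl.1
  refine ⟨(langOf A)ᶜ, by simpa [coNP] using hA, s, fun n => bitEncode (es n), fun n => ?_,
    fun x => ?_⟩
  · refine le_trans ?_ ((Nat.le_add_left _ _).trans (hs n))
    refine (bsize_list_le _ (3 * s0.eval (q.eval n)) fun e he => ?_).trans
      (Nat.mul_le_mul_right _ (h1 n))
    rw [bsize_boolList]
    exact Nat.mul_le_mul_left _ (h2 n e he).1
  · have key : L x = false ↔ A (x, bitEncode (es x.length)) := by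
      constructor
      · intro hx
        obtain ⟨l, hl1, hl2⟩ := h3 x.length x rfl hx
        refine ⟨l, ?_⟩
        simp only [ver, bitDecode_bitEncode, Option.any_some, Bool.and_eq_true, decide_eq_true_eq]
        exact ⟨hl1.trans ((Nat.le_add_right _ _).trans (hs _)), hl2⟩
      · rintro ⟨l, hl⟩
        simp only [ver, bitDecode_bitEncode, Option.any_some, Bool.and_eq_true,
          decide_eq_true_eq] at hl
        obtain ⟨-, hx, hlen, hmem⟩ := hl
        obtain ⟨-, P, J, hJ, hJP, he⟩ := h2 _ _ hmem
        rw [← Bool.not_eq_true]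
        intro hLx
        obtain ⟨j, hj, rfl⟩ := List.getElem_of_mem hx
        unfold GG at he
        have hP := key_len_inj he
        rw [← hP] at he hJP
        refine hJ (yes_of_key (hsize _ _ _ _) hJP he ((H _).1.1 ?_))
        have hy := compose_yes (h := Nat.log 2 l.length) (M := q.eval l[j].length) (l := l.map f)
          (j := j) (by omega) (by rw [hget l j hj]; exact (hLf _).1 hLx)
        rwa [← hlen] at hy
    have key2 := langOf_encode A (x, bitEncode (es x.length))
    rw [← key] at key2
    rw [Pi.compl_apply]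
    revert key2
    cases L x <;> cases langOf A (bitEncode (x, bitEncode (es x.length))) <;> simp

end Pool.Agent.Lib.MP_da63d3_lc
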