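import Pool.Agent.Lib.MP_da63d3_lc.Whole

/-! Many copies of the two dual halves, which share their bits. -/

namespace Pool.Agent.Lib.MP_da63d3_lc

open Relation

section one

variable {h : ℕ} {E : ℕ → Prop} {al : WV → Prop}

theorem gad_ac (hac : ∀ u, ¬ TransGen (fun a b => al a ∧ al b ∧ WA h (2 ^ h) (E a.2.2.1) a b) u u)
    (s : Bool) (u : HV) : ¬ TransGen (HR h (2 ^ h) (dd h) fun u => al (s, u)) u u := by
  intro hu
  cases s
  · exact hac _ (tg_map (fun u => (false, u))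
      (fun u v huv => ⟨huv.1, huv.2.1, Or.inl ⟨rfl, rfl, huv.2.2⟩⟩) hu)
  · exact hac _ (tg_map_rev (fun u => (true, u))
      (fun u v huv => ⟨huv.2.1, huv.1, Or.inr (Or.inl ⟨rfl, rfl, huv.2.2⟩)⟩) hu)

theorem gad_sound
    (hac : ∀ u, ¬ TransGen (fun a b => al a ∧ al b ∧ WA h (2 ^ h) (E a.2.2.1) a b) u u)
    (hA : ∀ s, ∀ r ≤ h + 1, al (s, 0, r, 0)) (hZ : ∀ s, ∀ r ≤ h, al (s, 1, r, 0))
    (hB : ∀ s, ∀ j < 2 ^ h, al (s, 5, j, 0))
    (hone : ∀ s k r i i', (k = 3 ∨ k = 4) → r ≤ h → i < 2 ^ h → i' < 2 ^ h → ¬ al (s, k, r, i) →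
      ¬ al (s, k, r, i') → i = i')
    (x x' : ℕ → ℕ) (hxx : ∀ r, x r = 0 ↔ x' r ≠ 0) (hx : ∀ r ≤ h, x r ≠ 0 → al (false, 2, r, 0))
    (hx' : ∀ r ≤ h, x' r ≠ 0 → al (true, 2, r, 0)) : ¬ E (vv h x h) := by
  intro h3
  set R : WV → WV → Prop := fun a b => al a ∧ al b ∧ WA h (2 ^ h) (E a.2.2.1) a b with hR
  have m0 : ∀ u v, HR h (2 ^ h) (dd h) (fun u => al (false, u)) u v → R (false, u) (false, v) :=
    fun u v huv => ⟨huv.1, huv.2.1, Or.inl ⟨rfl, rfl, huv.2.2⟩⟩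
  have m1 : ∀ u v, HR h (2 ^ h) (dd h) (fun u => al (true, u)) u v → R (true, v) (true, u) :=
    fun u v huv => ⟨huv.2.1, huv.1, Or.inr (Or.inl ⟨rfl, rfl, huv.2.2⟩)⟩
  have hdual := vv_dual h x x' hxx h le_rfl
  obtain ⟨u2, f2, l2, w2⟩ := half_sound (gad_ac hac false) (hA false) (hZ false) (hone false) x hx
    (vv h x) rfl (vv_step h x) (vv_lt h x) (h + 1) le_rfl
  obtain ⟨u4, f4, l4, w4⟩ := half_sound (gad_ac hac true) (hA true) (hZ true) (hone true) x' hx'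
    (vv h x') rfl (vv_step h x') (vv_lt h x') (h + 1) le_rfl
  rw [vv_top] at f2 f4
  replace w2 := rtg_map (fun u => (false, u)) m0 w2
  replace w4 := rtg_map_rev (fun u => (true, u)) m1 w4
  have t2 : R (true, 0, h + 1, 0) (false, 0, h, 0) :=
    ⟨hA true _ le_rfl, hA false h (by omega),
      Or.inr (Or.inr (Or.inr (Or.inr (Or.inr ⟨rfl, rfl, rfl, rfl, by dsimp only; omega⟩))))⟩
  have t3 : R (false, 0, h, 0) (false, 0, h + 1, 0) :=
    m0 _ _ ⟨hA false h (by omega), hA false _ le_rfl, Or.inl ⟨Or.inl rfl, rfl, rfl⟩⟩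
  have h1 := hB false (vv h x h) (by omega)
  have h2 := hB true (vv h x' h) (by omega)
  have h4 : R (false, 5, vv h x h, 0) (true, 5, vv h x' h, 0) := ⟨h1, h2,
    Or.inr (Or.inr (Or.inr (Or.inr (Or.inl ⟨rfl, rfl, rfl, rfl, hdual, h3⟩))))⟩
  exact hac _ (TransGen.tail' (((((w2.tail (m0 _ _ ⟨l2, h1, by unfold HA; simp [f2]⟩)).tail
    h4).tail (m1 _ _ ⟨l4, h2, by unfold HA; simp [f4]⟩)).trans w4).tail t2) t3)

/-- The vertices that survive in the intended solution. -/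
def surv (h : ℕ) (xs : Bool → ℕ → ℕ) (a : WV) : Prop :=
  valid h (2 ^ h) 1 a.2 ∧ a.2.1 ≤ 5 ∧
    ¬ del (xs a.1) (vv h (xs a.1)) (vv h (xs a.1) h) (fun _ => 0) a.2

theorem surv_bit {xs : Bool → ℕ → ℕ} {a : WV} (ha : surv h xs a) (h2 : a.2.1 = 2) :
    xs a.1 a.2.2.1 ≠ 0 := fun h3 => ha.2.2 (Or.inl ⟨h2, h3⟩)

theorem gad_complete (xs : Bool → ℕ → ℕ) (hxs : ∀ r, xs false r = 0 ↔ xs true r ≠ 0)
    (hE : ¬ E (vv h (xs false) h)) : ∃ f : WV → ℤ ×ₗ ℤ ×ₗ ℤ, ∀ a b, surv h xs a → surv h xs b →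
      WA h (2 ^ h) (E a.2.2.1) a b → f a < f b := by
  have hdual := vv_dual h _ _ hxs h le_rfl
  let L : Bool → HV → ℤ := fun s => lab h (dd h) (xs s) (vv h (xs s)) (vv h (xs s) h) fun _ => 0
  have hhalf : ∀ s u v, surv h xs (s, u) → surv h xs (s, v) →
      HA h (2 ^ h) (dd h v.2.1) u v → L s u < L s v ∨ (L s u = L s v ∧
        (rank h u < rank h v ∨ (rank h u = rank h v ∧ u.2.2 < v.2.2))) := by
    intro s u v hu hv huv
    have h1 : valid h (2 ^ h) 1 u := hu.1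
    refine half_complete (dd_self h) (vv_step h _) (vv_lt h _) rfl ?_ ?_ hu.2.2 hv.2.2 huv
    · unfold valid at h1; omega
    · unfold valid at h1; omega
  refine ⟨fun a => if a.1 then
    toLex (6 * h + 2 - L true a.2, toLex (-rank h a.2, -(a.2.2.2 : ℤ)))
    else toLex (L false a.2, toLex (rank h a.2, (a.2.2.2 : ℤ))), ?_⟩
  rintro ⟨s, k, p, q⟩ ⟨s', k', p', q'⟩ ha hb hab
  rcases hab with ⟨rfl, rfl, hab⟩ | ⟨rfl, rfl, hab⟩ | ⟨h1, rfl, rfl, rfl⟩ |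
    ⟨rfl, rfl, rfl, rfl, h1, rfl⟩ | ⟨rfl, rfl, rfl, rfl, h1, h2⟩ | ⟨rfl, rfl, rfl, rfl, h1⟩
  · have := hhalf false _ _ ha hb hab
    simp only [Bool.false_eq_true, if_false, Prod.Lex.toLex_lt_toLex]
    dsimp only at this
    omega
  · have := hhalf true _ _ hb ha hab
    simp only [if_true, Prod.Lex.toLex_lt_toLex]
    dsimp only at this
    omega
  · exfalso
    have d1 := surv_bit ha rfl
    have d2 := surv_bit hb rfl
    cases s <;> cases s'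
    · exact h1 rfl
    · exact d1 ((hxs p).2 d2)
    · exact d2 ((hxs p).2 d1)
    · exact h1 rfl
  · exact absurd ha.2.1 (by simp)
  · simp only [Bool.false_eq_true, if_false, if_true, Prod.Lex.toLex_lt_toLex]
    left
    have e1 := (lab5 h (dd h) (xs false) (vv h (xs false)) (vv h (xs false) h) (fun _ => 0) p q).1
    have e2 := (lab5 h (dd h) (xs true) (vv h (xs true)) (vv h (xs true) h) (fun _ => 0) p' q').1
    have e3 : p ≠ vv h (xs false) h := by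
      rintro rfl
      exact hE h2
    simp only [L]
    dsimp only at h1
    omega
  · simp only [Bool.false_eq_true, if_false, if_true, Prod.Lex.toLex_lt_toLex]
    left
    have e1 := (lab0 h (dd h) (xs true) (vv h (xs true)) (vv h (xs true) h) (fun _ => 0) p q).1
    have e2 := (lab0 h (dd h) (xs false) (vv h (xs false)) (vv h (xs false) h) (fun _ => 0) p' q').1
    simp only [L]
    dsimp only at h1
    omega

end one

/-- Vertices: the name of a copy and a vertex of that copy. -/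
abbrev GV := (ℕ × ℕ) × WV

/-- The shared bit read at level `r` of the copy `g`. -/
def lb (b : ℕ) (g : ℕ × ℕ) (r : ℕ) : ℕ × ℕ := if r < b then (g.1, r) else (g.2, r - b)

/-- The vertices that are present. -/
def pres (h T k : ℕ) (a : GV) : Prop := a.1.1 < k ∧ a.1.2 < k ∧ valid h T 1 a.2.2 ∧ a.2.2.1 ≤ 5

instance (h T k : ℕ) (a : GV) : Decidable (pres h T k a) := by unfold pres; infer_instance

/-- The budget. -/
def bud (h k : ℕ) : ℕ := k * k * (5 * (h + 1))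

/-- The weights. -/
def gw (h T k : ℕ) (a : GV) : ℕ :=
  if pres h T k a then (if 2 ≤ a.2.2.1 ∧ a.2.2.1 ≤ 4 then 1 else bud h k + 1) else 0

/-- The arcs. -/
def GA (h T b : ℕ) (e : Prop) (a a' : GV) : Prop :=
  (a.1 = a'.1 ∧ WA h T e a.2 a'.2) ∨
  (a.2.1 ≠ a'.2.1 ∧ a.2.2.1 = 2 ∧ a'.2.2.1 = 2 ∧ lb b a.1 a.2.2.2.1 = lb b a'.1 a'.2.2.2.1)

theorem GA_irrefl (h T b : ℕ) (e : Prop) (a : GV) : ¬ GA h T b e a a := by
  rintro (h1 | h1)
  · exact WA_irrefl _ _ _ _ h1.2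
  · exact h1.1 rfl

theorem gw_pos {h T k : ℕ} {a : GV} : 0 < gw h T k a ↔ pres h T k a := by
  unfold gw
  split_ifs with h1 <;> simp [h1]

/-- The groups of light vertices. -/
def GGs (h k : ℕ) : Finset ((ℕ × ℕ) × (Bool × ℕ) × ℕ) :=
  (Finset.range k ×ˢ Finset.range k) ×ˢ Gs h

theorem card_GGs (h k : ℕ) : (GGs h k).card = bud h k := by
  rw [GGs, Finset.card_product, Finset.card_product, Finset.card_range, card_Gs, bud]

theorem mem_GGs {h k : ℕ} {g : ℕ × ℕ} {s : Bool} {t r : ℕ} : (g, (s, t), r) ∈ GGs h k ↔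
    (g.1 < k ∧ g.2 < k) ∧ ((s = false ∧ t = 2) ∨ t = 3 ∨ t = 4) ∧ r ≤ h := by
  rw [GGs, Finset.mem_product, Finset.mem_product, Finset.mem_range, Finset.mem_range, mem_Gs]

theorem many_sound {h b k : ℕ} {E : ℕ × ℕ → ℕ → Prop}
    (H : WYes (gw h (2 ^ h) k) (fun a a' => GA h (2 ^ h) b (E a.1 a.2.2.2.1) a a') (bud h k)) :
    ∃ x : ℕ × ℕ → ℕ, ∀ g : ℕ × ℕ, g.1 < k → g.2 < k →
      ¬ E g (vv h (fun r => x (lb b g r)) h) := by
  classical
  obtain ⟨X, hX, hac⟩ := H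
  set al : GV → Prop := fun a => 0 < gw h (2 ^ h) k a ∧ a ∉ X with hal
  have hac1 : ∀ g u, ¬ TransGen (fun a a' : WV => al (g, a) ∧ al (g, a') ∧
      WA h (2 ^ h) (E g a.2.2.1) a a') u u := fun g u hu =>
    hac _ (tg_map (fun u => (g, u)) (fun u v huv => ⟨huv.1, huv.2.1, Or.inl ⟨rfl, huv.2.2⟩⟩) hu)
  have hterm : ∀ a, pres h (2 ^ h) k a → ¬ (2 ≤ a.2.2.1 ∧ a.2.2.1 ≤ 4) → al a := by
    intro a ha hk
    refine ⟨gw_pos.2 ha, fun hm => ?_⟩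
    have h1 := Finset.single_le_sum (f := gw h (2 ^ h) k) (fun _ _ => Nat.zero_le _) hm
    rw [gw, if_pos ha, if_neg hk] at h1
    omega
  have hA : ∀ g : ℕ × ℕ, g.1 < k → g.2 < k → ∀ s, ∀ r ≤ h + 1, al (g, s, 0, r, 0) :=
    fun g g1 g2 s r hr => hterm _ ⟨g1, g2, Or.inl ⟨rfl, hr, rfl⟩, by simp⟩ (by simp)
  have hZ : ∀ g : ℕ × ℕ, g.1 < k → g.2 < k → ∀ s, ∀ r ≤ h, al (g, s, 1, r, 0) :=
    fun g g1 g2 s r hr => hterm _ ⟨g1, g2, Or.inr (Or.inl ⟨Or.inl rfl, hr, rfl⟩), by simp⟩ (by simp)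
  have hB : ∀ g : ℕ × ℕ, g.1 < k → g.2 < k → ∀ s, ∀ j < 2 ^ h, al (g, s, 5, j, 0) :=
    fun g g1 g2 s j hj => hterm _
      ⟨g1, g2, Or.inr (Or.inr (Or.inr ⟨Or.inl rfl, hj, one_pos⟩)), by simp⟩ (by simp)
  have vL : ∀ g : ℕ × ℕ, g.1 < k → g.2 < k → ∀ s, ∀ r ≤ h, pres h (2 ^ h) k (g, s, 2, r, 0) :=
    fun g g1 g2 s r hr => ⟨g1, g2, Or.inr (Or.inl ⟨Or.inr rfl, hr, rfl⟩), by simp⟩
  have vP : ∀ g : ℕ × ℕ, g.1 < k → g.2 < k → ∀ s t r i, (t = 3 ∨ t = 4) → r ≤ h → i < 2 ^ h →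
      pres h (2 ^ h) k (g, s, t, r, i) := fun g g1 g2 s t r i ht hr hi =>
    ⟨g1, g2, Or.inr (Or.inr (Or.inl ⟨ht, hr, hi⟩)), by dsimp only; omega⟩
  have hdead : ∀ a, pres h (2 ^ h) k a → ¬ al a → a ∈ X := by
    intro a ha hd
    by_contra hcon
    exact hd ⟨gw_pos.2 ha, hcon⟩
  have two : ∀ g g' : ℕ × ℕ, g.1 < k → g.2 < k → g'.1 < k → g'.2 < k → ∀ r ≤ h, ∀ r' ≤ h,
      lb b g r = lb b g' r' → ((g, false, 2, r, 0) : GV) ∉ X → ((g', true, 2, r', 0) : GV) ∈ X := by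
    intro g g' g1 g2 g3 g4 r hr r' hr' e n1
    by_contra n2
    have a1 : al (g, false, 2, r, 0) := ⟨gw_pos.2 (vL g g1 g2 _ r hr), n1⟩
    have a2 : al (g', true, 2, r', 0) := ⟨gw_pos.2 (vL g' g3 g4 _ r' hr'), n2⟩
    exact hac _ ((TransGen.single ⟨a1, a2, Or.inr ⟨by simp, rfl, rfl, e⟩⟩).tail
      ⟨a2, a1, Or.inr ⟨by simp, rfl, rfl, e.symm⟩⟩)
  set light := X.filter fun a => pres h (2 ^ h) k a ∧ 2 ≤ a.2.2.1 ∧ a.2.2.1 ≤ 4 with hlight
  have hle : light.card ≤ (GGs h k).card := by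
    rw [card_GGs]
    refine le_trans ?_ ((Finset.sum_le_sum_of_subset (Finset.filter_subset _ _) :
      ∑ a ∈ light, _ ≤ _).trans hX)
    exact le_trans (by simp) (Finset.card_nsmul_le_sum light _ 1 fun a ha =>
      gw_pos.2 (Finset.mem_filter.1 ha).2.1)
  have hsurj : Set.SurjOn (fun a : GV => (a.1, grp a.2)) light (GGs h k) := by
    rintro ⟨g, ⟨s, t⟩, r⟩ hg
    obtain ⟨⟨g1, g2⟩, ht, hr⟩ := mem_GGs.1 (Finset.mem_coe.1 hg)
    rcases ht with ⟨rfl, rfl⟩ | ht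
    · obtain ⟨s, hs⟩ : ∃ s, ((g, s, 2, r, 0) : GV) ∈ X := by
        by_cases n1 : ((g, false, 2, r, 0) : GV) ∈ X
        · exact ⟨_, n1⟩
        · exact ⟨_, two g g g1 g2 g1 g2 r hr r hr rfl n1⟩
      exact ⟨(g, s, 2, r, 0), Finset.mem_coe.2 (Finset.mem_filter.2
        ⟨hs, vL g g1 g2 s r hr, by simp, by simp⟩), by simp [grp]⟩
    · obtain ⟨i, hi, hi'⟩ := path_dead (gad_ac (hac1 g) s) (by positivity) (hA g g1 g2 s)
        (hZ g g1 g2 s) ht hr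
      refine ⟨(g, s, t, r, i), Finset.mem_coe.2 (Finset.mem_filter.2
        ⟨hdead _ (vP g g1 g2 s t r i ht hr hi) hi', vP g g1 g2 s t r i ht hr hi,
          by dsimp only; omega⟩), ?_⟩
      have : t ≠ 2 := by omega
      simp [grp, this]
  have hmaps : Set.MapsTo (fun a : GV => (a.1, grp a.2)) light (GGs h k) := by
    rintro ⟨g, s, t, r, i⟩ ha
    obtain ⟨⟨g1, g2, h1, -⟩, h2, h3⟩ := (Finset.mem_filter.1 (Finset.mem_coe.1 ha)).2
    unfold valid at h1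
    dsimp only at h1 h2 h3
    refine Finset.mem_coe.2 (mem_GGs.2 ⟨⟨g1, g2⟩, ?_, by dsimp only; omega⟩)
    by_cases hk : t = 2
    · simp [hk]
    · right
      dsimp only
      omega
  have hinj := Finset.injOn_of_surjOn_of_card_le _ hmaps hsurj hle
  have one : ∀ g : ℕ × ℕ, g.1 < k → g.2 < k → ∀ r ≤ h, ((g, false, 2, r, 0) : GV) ∈ X →
      ((g, true, 2, r, 0) : GV) ∉ X := by
    intro g g1 g2 r hr n1 n2
    have := hinj (x₁ := (g, false, 2, r, 0)) (x₂ := (g, true, 2, r, 0))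
      (Finset.mem_coe.2 (Finset.mem_filter.2 ⟨n1, vL g g1 g2 _ r hr, by simp, by simp⟩))
      (Finset.mem_coe.2 (Finset.mem_filter.2 ⟨n2, vL g g1 g2 _ r hr, by simp, by simp⟩))
      (by simp [grp])
    simp at this
  let P : ℕ × ℕ → Prop := fun l => ∃ g : ℕ × ℕ, g.1 < k ∧ g.2 < k ∧ ∃ r ≤ h, lb b g r = l ∧
    ((g, false, 2, r, 0) : GV) ∈ X
  refine ⟨fun l => if P l then 0 else 1, fun g g1 g2 => gad_sound (hac1 g) (hA g g1 g2)
    (hZ g g1 g2) (hB g g1 g2) ?_ _ (fun r => if P (lb b g r) then 1 else 0)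
    (fun r => by by_cases hp : P (lb b g r) <;> simp [hp]) (fun r hr h1 => ?_) fun r hr h1 => ?_⟩
  · intro s t r i i' ht hr hi hi' h1 h2
    have := hinj (x₁ := (g, s, t, r, i)) (x₂ := (g, s, t, r, i'))
      (Finset.mem_coe.2 (Finset.mem_filter.2 ⟨hdead _ (vP g g1 g2 s t r i ht hr hi) h1,
        vP g g1 g2 s t r i ht hr hi, by dsimp only; omega⟩))
      (Finset.mem_coe.2 (Finset.mem_filter.2 ⟨hdead _ (vP g g1 g2 s t r i' ht hr hi') h2,
        vP g g1 g2 s t r i' ht hr hi', by dsimp only; omega⟩)) rfl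
    simpa using this
  · exact ⟨gw_pos.2 (vL g g1 g2 _ r hr), fun h2 => h1 (if_pos ⟨g, g1, g2, r, hr, rfl, h2⟩)⟩
  · obtain ⟨g', g3, g4, r', hr', e, n1⟩ : P (lb b g r) := by
      by_contra h2
      exact h1 (if_neg h2)
    refine ⟨gw_pos.2 (vL g g1 g2 _ r hr), one g g1 g2 r hr ?_⟩
    by_contra n2
    exact one g' g3 g4 r' hr' n1 (two g g' g1 g2 g3 g4 r hr r' hr' e.symm n2)

theorem many_complete {h b k : ℕ} {E : ℕ × ℕ → ℕ → Prop} (x : ℕ × ℕ → ℕ)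
    (hE : ∀ g : ℕ × ℕ, g.1 < k → g.2 < k → ¬ E g (vv h (fun r => x (lb b g r)) h)) :
    WYes (gw h (2 ^ h) k) (fun a a' => GA h (2 ^ h) b (E a.1 a.2.2.2.1) a a') (bud h k) := by
  classical
  let y : Bool → ℕ × ℕ → ℕ := fun s l => if s then (if x l = 0 then 1 else 0) else x l
  have hy : ∀ l, y false l = 0 ↔ y true l ≠ 0 := fun l => by
    by_cases h1 : x l = 0 <;> simp [y, h1]
  let xs : ℕ × ℕ → Bool → ℕ → ℕ := fun g s r => y s (lb b g r)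
  have hf : ∀ g : ℕ × ℕ, ∃ f : WV → ℤ ×ₗ ℤ ×ₗ ℤ, g.1 < k → g.2 < k → ∀ a a', surv h (xs g) a →
      surv h (xs g) a' → WA h (2 ^ h) (E g a.2.2.1) a a' → f a < f a' := by
    intro g
    by_cases hg : g.1 < k ∧ g.2 < k
    · obtain ⟨f, hf⟩ := gad_complete (E := E g) (xs g) (fun r => hy _) (hE g hg.1 hg.2)
      exact ⟨f, fun _ _ => hf⟩
    · exact ⟨fun _ => default, fun g1 g2 => absurd ⟨g1, g2⟩ hg⟩
  choose f hf using hf
  let pick : (ℕ × ℕ) × (Bool × ℕ) × ℕ → GV := fun z => (z.1,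
    if z.2.1.2 = 2 then (decide (xs z.1 false z.2.2 ≠ 0), 2, z.2.2, 0)
    else if z.2.1.2 = 3 then (z.2.1.1, 3, z.2.2, vv h (xs z.1 z.2.1.1) z.2.2)
    else (z.2.1.1, 4, z.2.2, vv h (xs z.1 z.2.1.1) (z.2.2 + 1)))
  refine ⟨(GGs h k).image pick, ?_, ?_⟩
  · refine (sum_image_le' _ _ _ 1 fun z _ => ?_).trans (by rw [card_GGs, mul_one])
    have : 2 ≤ (pick z).2.2.1 ∧ (pick z).2.2.1 ≤ 4 := by
      simp only [pick]
      split_ifs <;> simp
    rw [gw, if_pos this]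
    split_ifs <;> simp
  · have hdel : ∀ a, pres h (2 ^ h) k a → a ∉ (GGs h k).image pick → surv h (xs a.1) a.2 := by
      rintro ⟨g, s, t, p, q⟩ ⟨g1, g2, hu, h5⟩ hX
      refine ⟨hu, h5, fun hd => hX ?_⟩
      unfold valid at hu
      dsimp only at hu
      rcases hd with ⟨rfl, h1⟩ | ⟨rfl, h1⟩ | ⟨rfl, h1⟩ | ⟨-, -, h2⟩
      · refine Finset.mem_image.2 ⟨(g, (false, 2), p), mem_GGs.2 ⟨⟨g1, g2⟩, by simp, by omega⟩, ?_⟩
        obtain rfl : q = 0 := by omega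
        dsimp only at h1
        cases s
        · simp [pick, h1]
        · have h3 : xs g false p ≠ 0 := fun h4 => (hy _).1 h4 h1
          simp [pick, h3]
      · refine Finset.mem_image.2 ⟨(g, (s, 3), p), mem_GGs.2 ⟨⟨g1, g2⟩, by simp, by omega⟩, ?_⟩
        dsimp only at h1
        simp [pick, h1]
      · refine Finset.mem_image.2 ⟨(g, (s, 4), p), mem_GGs.2 ⟨⟨g1, g2⟩, by simp, by omega⟩, ?_⟩
        dsimp only at h1
        simp [pick, h1]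
      · exact absurd rfl h2
    refine acyclic_of_pot (fun a : GV => f a.1 a.2) ?_
    rintro ⟨g, a⟩ ⟨g', a'⟩ ⟨⟨ha, ha'⟩, ⟨hb, hb'⟩, hab⟩
    rw [gw_pos] at ha hb
    have s1 := hdel _ ha ha'
    have s2 := hdel _ hb hb'
    rcases hab with ⟨rfl, hab⟩ | ⟨h1, h2, h3, h4⟩
    · exact hf _ ha.1 ha.2.1 _ _ s1 s2 hab
    · exfalso
      have d1 : y a.1 (lb b g a.2.2.1) ≠ 0 := surv_bit s1 h2
      have d2 : y a'.1 (lb b g' a'.2.2.1) ≠ 0 := surv_bit s2 h3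
      dsimp only at h1 h4
      rw [← h4] at d2
      revert h1 d1 d2
      cases a.1 <;> cases a'.1 <;> intro h1 d1 d2
      · exact h1 rfl
      · exact d1 ((hy _).2 d2)
      · exact d2 ((hy _).2 d1)
      · exact h1 rfl

end Pool.Agent.Lib.MP_da63d3_lc
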