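import Pool.Agent.Lib.MP_da63d3_lc.Whole
import Pool.Agent.Shared.PolyTime.CookLevin

/-! The conflict relation of a 3-CNF formula, and the composed instance. -/

namespace Pool.Agent.Lib.MP_da63d3_lc

open Pool.Agent.Shared.PolyTime

/-- Formulas. -/
abbrev Fm := List (Clause3 ℕ)

/-- The literal number `u % 3` of clause number `u / 3`. -/
def lit (φ : Fm) (u : ℕ) : Lit ℕ :=
  if u % 3 = 0 then (φ.getD (u / 3) ((0, false), (0, false), (0, false))).1
  else if u % 3 = 1 then (φ.getD (u / 3) ((0, false), (0, false), (0, false))).2.1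
  else (φ.getD (u / 3) ((0, false), (0, false), (0, false))).2.2

/-- Two literal occurrences are in conflict. -/
def conf (φ : Fm) (u v : ℕ) : Prop :=
  (u / 3 = v / 3 ∧ u ≠ v) ∨ (u / 3 < φ.length ∧ v / 3 < φ.length ∧ (lit φ u).1 = (lit φ v).1 ∧
    (lit φ u).2 ≠ (lit φ v).2)

theorem indep_of_sat {φ : Fm} (h : Sat3 φ) (M : ℕ) :
    ∃ I ⊆ Finset.range (3 * M), (∀ u ∈ I, ∀ v ∈ I, ¬ conf φ u v) ∧
      2 * (3 * M) ≤ 5 * M + I.card := by
  obtain ⟨ν, hν⟩ := h
  have key : ∀ i, ∃ u, u / 3 = i ∧ (i < φ.length → ν (lit φ u).1 = (lit φ u).2) := by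
    intro i
    by_cases hi : i < φ.length
    · have e : φ.getD i ((0, false), (0, false), (0, false)) = φ[i] := List.getD_eq_getElem _ _ hi
      rcases hν φ[i] (List.getElem_mem hi) with h1 | h1 | h1
      · refine ⟨3 * i, by omega, fun _ => ?_⟩
        rw [lit, if_pos (by omega), show 3 * i / 3 = i by omega, e]
        exact h1
      · refine ⟨3 * i + 1, by omega, fun _ => ?_⟩
        rw [lit, if_neg (by omega), if_pos (by omega), show (3 * i + 1) / 3 = i by omega, e]
        exact h1
      · refine ⟨3 * i + 2, by omega, fun _ => ?_⟩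
        rw [lit, if_neg (by omega), if_neg (by omega), show (3 * i + 2) / 3 = i by omega, e]
        exact h1
    · exact ⟨3 * i, by omega, fun h => absurd h hi⟩
  choose t ht1 ht2 using key
  refine ⟨(Finset.range M).image t, fun u hu => ?_, fun u hu v hv => ?_, ?_⟩
  · obtain ⟨i, hi, rfl⟩ := Finset.mem_image.1 hu
    have := ht1 i
    have := Finset.mem_range.1 hi
    exact Finset.mem_range.2 (by omega)
  · obtain ⟨i, -, rfl⟩ := Finset.mem_image.1 hu
    obtain ⟨j, -, rfl⟩ := Finset.mem_image.1 hv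
    rintro (⟨h1, h2⟩ | ⟨h1, h2, h3, h4⟩)
    · rw [ht1, ht1] at h1
      exact h2 (by rw [h1])
    · rw [ht1] at h1 h2
      exact h4 (by rw [← ht2 i h1, ← ht2 j h2, h3])
  · rw [Finset.card_image_of_injective _ fun i j hij => by rw [← ht1 i, ← ht1 j, hij],
      Finset.card_range]
    omega

theorem sat_of_indep {φ : Fm} {M : ℕ} (hM : φ.length ≤ M) {I : Finset ℕ}
    (hI : I ⊆ Finset.range (3 * M)) (hind : ∀ u ∈ I, ∀ v ∈ I, ¬ conf φ u v)
    (hc : 2 * (3 * M) ≤ 5 * M + I.card) : Sat3 φ := by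
  classical
  have hsurj : Set.SurjOn (fun u => u / 3) I (Finset.range M) := by
    refine Finset.surjOn_of_injOn_of_card_le _ (fun u hu => ?_) (fun u hu v hv huv => ?_) ?_
    · have := Finset.mem_range.1 (hI hu)
      exact Finset.mem_coe.2 (Finset.mem_range.2 (by omega))
    · by_contra hne
      exact hind u hu v hv (Or.inl ⟨huv, hne⟩)
    · rw [Finset.card_range]
      omega
  refine ⟨fun x => decide (∃ u ∈ I, u / 3 < φ.length ∧ lit φ u = (x, true)), fun c hc => ?_⟩
  obtain ⟨i, hi, rfl⟩ := List.getElem_of_mem hc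
  obtain ⟨u, hu, hui⟩ := hsurj (Finset.mem_coe.2 (Finset.mem_range.2 (hi.trans_le hM)))
  dsimp only at hui
  have hsat : decide (∃ v ∈ I, v / 3 < φ.length ∧ lit φ v = ((lit φ u).1, true)) =
      (lit φ u).2 := by
    cases hb : (lit φ u).2
    · refine decide_eq_false ?_
      rintro ⟨v, hv, h1, h2⟩
      refine hind u hu v hv (Or.inr ⟨by omega, h1, by rw [h2], ?_⟩)
      rw [h2, hb]
      simp
    · exact decide_eq_true ⟨u, hu, by omega, by rw [← hb]⟩
  have e : φ.getD i ((0, false), (0, false), (0, false)) = φ[i] := List.getD_eq_getElem _ _ hi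
  have hl : lit φ u = φ[i].1 ∨ lit φ u = φ[i].2.1 ∨ lit φ u = φ[i].2.2 := by
    unfold lit
    rw [hui, e]
    split_ifs <;> simp
  unfold Clause3.Holds
  rcases hl with hl | hl | hl <;> rw [hl] at hsat <;> simp only [hsat, true_or, or_true]

/-- The box of candidate vertices. -/
def box (B : ℕ) : List WV :=
  [false, true].product ((List.range 7).product ((List.range B).product (List.range B)))

theorem nodup_box (B : ℕ) : (box B).Nodup :=
  List.Nodup.product (by simp) (List.Nodup.product List.nodup_range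
    (List.Nodup.product List.nodup_range List.nodup_range))

theorem mem_box {B : ℕ} {a : WV} : a ∈ box B ↔ a.2.1 < 7 ∧ a.2.2.1 < B ∧ a.2.2.2 < B := by
  obtain ⟨s, k, p, q⟩ := a
  cases s <;> simp [box, List.product]

instance (r j : ℕ) (u : HV) : Decidable (feeds r j u) := by unfold feeds; infer_instance

instance (h T dv : ℕ) (u v : HV) : Decidable (HA h T dv u v) := by unfold HA; infer_instance

instance (h T : ℕ) (e : Prop) [Decidable e] (a b : WV) : Decidable (WA h T e a b) := by
  unfold WA; infer_instance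

instance (φ : Fm) (u v : ℕ) : Decidable (conf φ u v) := by unfold conf; infer_instance

/-- The composed instance for `T` formulas with at most `M` clauses each. -/
def compose (h T M : ℕ) (l : List Fm) : Inst :=
  (mkAdj (blow (box (T + 3 * M + h + 2)) (wt h T (3 * M) (5 * M))) (false, 0, 0, 0)
    (fun a b => decide (WA h T (conf (l.getD a.2.2.1 []) a.2.2.2 b.2.2.2) a b)),
    List.replicate (KK h (5 * M)) false)

theorem yes_compose (h M : ℕ) (l : List Fm) : Yes (compose h (2 ^ h) M l) ↔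
    WYes (wt h (2 ^ h) (3 * M) (5 * M)) (WR h (2 ^ h) fun j => conf (l.getD j []))
      (KK h (5 * M)) := by
  unfold compose
  rw [yes_mkAdj _ _ _ (wt h (2 ^ h) (3 * M) (5 * M)) (WR h (2 ^ h) fun j => conf (l.getD j []))
    (fun a b => by simp [WR]) (fun a => WA_irrefl _ _ _ _), List.length_replicate]
  intro u
  rw [count_blow _ _ (nodup_box _)]
  split_ifs with hu
  · rfl
  · by_contra hcon
    have h1 : valid h (2 ^ h) (3 * M) u.2 := wt_pos.1 (Nat.pos_of_ne_zero fun e => hcon e.symm)
    apply hu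
    rw [mem_box]
    unfold valid at h1
    generalize 2 ^ h = T at h1 ⊢
    omega

theorem compose_yes {h M : ℕ} {l : List Fm} {j : ℕ} (hj : j < 2 ^ h) (hs : Sat3 (l.getD j [])) :
    Yes (compose h (2 ^ h) M l) := by
  obtain ⟨I, h1, h2, h3⟩ := indep_of_sat hs M
  exact (yes_compose h M l).2 (whole_complete hj h1 h2 h3)

theorem compose_no {h M : ℕ} {l : List Fm} (hM : ∀ j < 2 ^ h, (l.getD j []).length ≤ M)
    (hy : Yes (compose h (2 ^ h) M l)) : ∃ j < 2 ^ h, Sat3 (l.getD j []) := by
  obtain ⟨j, hj, I, h1, h2, h3⟩ := whole_sound ((yes_compose h M l).1 hy)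
  exact ⟨j, hj, sat_of_indep (hM j hj) h1 h2 h3⟩

end Pool.Agent.Lib.MP_da63d3_lc
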