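import Pool.Agent.Lib.MP_da63d3_lc.Half

/-! The weighted composed digraph: two dual halves. -/

namespace Pool.Agent.Lib.MP_da63d3_lc

open Relation

/-- Vertices: a side and a vertex of a half. -/
abbrev WV := Bool × HV

/-- The budget. -/
def KK (h k0 : ℕ) : ℕ := 5 * (h + 1) * (k0 + 1) + k0

instance (h T N : ℕ) (u : HV) : Decidable (valid h T N u) := by unfold valid; infer_instance

/-- The weights. -/
def wt (h T N k0 : ℕ) (a : WV) : ℕ :=
  if valid h T N a.2 then (if a.2.1 ≤ 1 then KK h k0 + 1 else if a.2.1 ≤ 4 then k0 + 1 else 1)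
  else 0

/-- The jump of level `r`. -/
def dd (h r : ℕ) : ℕ := if r < h then 2 ^ (min r h) else 0

/-- The arcs; `e` tells whether the block relation holds for the pair. -/
def WA (h T : ℕ) (e : Prop) (a b : WV) : Prop :=
  (a.1 = false ∧ b.1 = false ∧ HA h T (dd h b.2.2.1) a.2 b.2) ∨
  (a.1 = true ∧ b.1 = true ∧ HA h T (dd h a.2.2.1) b.2 a.2) ∨
  (a.1 ≠ b.1 ∧ a.2.1 = 2 ∧ b.2.1 = 2 ∧ a.2.2.1 = b.2.2.1) ∨
  (a.1 = false ∧ b.1 = true ∧ a.2.1 = 6 ∧ b.2.1 = 6 ∧ a.2.2.1 + b.2.2.1 + 1 = T ∧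
    a.2.2.2 = b.2.2.2) ∨
  (a.1 = false ∧ b.1 = true ∧ a.2.1 = 5 ∧ b.2.1 = 5 ∧ a.2.2.1 + b.2.2.1 + 1 = T ∧ e) ∨
  (a.1 = true ∧ b.1 = false ∧ a.2.1 = 0 ∧ b.2.1 = 0 ∧ a.2.2.1 + b.2.2.1 = 2 * h + 1)

theorem WA_irrefl (h T : ℕ) (e : Prop) (a : WV) : ¬ WA h T e a a := by
  rintro (h1 | h1 | h1 | h1 | h1 | h1)
  · exact HA_irrefl _ _ _ _ h1.2.2
  · exact HA_irrefl _ _ _ _ h1.2.2
  · exact h1.1 rfl
  all_goals exact absurd (h1.1.symm.trans h1.2.1) (by simp)

/-- Partial sums of the jumps selected by the bits. -/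
def vv (h : ℕ) (x : ℕ → ℕ) : ℕ → ℕ
  | 0 => 0
  | r + 1 => vv h x r + if x r = 0 then 0 else dd h r

theorem vv_step (h : ℕ) (x : ℕ → ℕ) (r : ℕ) :
    (x r = 0 ∧ vv h x (r + 1) = vv h x r) ∨ (x r ≠ 0 ∧ vv h x (r + 1) = vv h x r + dd h r) := by
  by_cases hx : x r = 0 <;> simp [vv, hx]

theorem dd_self (h : ℕ) : dd h h = 0 := by simp [dd]

theorem vv_top (h : ℕ) (x : ℕ → ℕ) : vv h x (h + 1) = vv h x h := by
  have := vv_step h x h
  have := dd_self h
  omega

theorem vv_dual (h : ℕ) (x x' : ℕ → ℕ) (hx : ∀ r, x r = 0 ↔ x' r ≠ 0) (r : ℕ) (hr : r ≤ h) :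
    vv h x r + vv h x' r + 1 = 2 ^ r := by
  induction r with
  | zero => simp [vv]
  | succ r ih =>
    have h1 := ih (by omega)
    have h2 := vv_step h x r
    have h3 := vv_step h x' r
    have h4 := hx r
    have h5 : dd h r = 2 ^ r := by
      have : r < h := by omega
      simp [dd, this, this.le]
    rw [pow_succ]
    omega

theorem vv_lt (h : ℕ) (x : ℕ → ℕ) (r : ℕ) (hr : r ≤ h + 1) : vv h x r < 2 ^ h := by
  have key : ∀ r ≤ h, vv h x r < 2 ^ h := by
    intro r hr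
    have h1 := vv_dual h x (fun r => if x r = 0 then 1 else 0)
      (fun r => by by_cases hx : x r = 0 <;> simp [hx]) r hr
    have h2 := Nat.pow_le_pow_right (n := 2) (by norm_num) hr
    omega
  rcases Nat.lt_or_ge h r with h1 | h1
  · obtain rfl : r = h + 1 := by omega
    rw [vv_top]
    exact key h le_rfl
  · exact key r h1

theorem vv_bits (h c : ℕ) (r : ℕ) (hr : r ≤ h) :
    vv h (fun r => c / 2 ^ r % 2) r = c % 2 ^ r := by
  induction r with
  | zero => simp [vv, Nat.mod_one]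
  | succ r ih =>
    have h1 := ih (by omega)
    have h2 := vv_step h (fun r => c / 2 ^ r % 2) r
    have h5 : dd h r = 2 ^ r := by
      have : r < h := by omega
      simp [dd, this, this.le]
    rw [Nat.mod_pow_succ]
    rcases h2 with ⟨h2, h3⟩ | ⟨h2, h3⟩
    · rw [h3, h1, h2]
      simp
    · have h6 : c / 2 ^ r % 2 = 1 := by omega
      rw [h3, h1, h5, h6, mul_one]

/-- The groups of heavy vertices. -/
def Gs (h : ℕ) : Finset ((Bool × ℕ) × ℕ) :=
  ({(false, 2), (false, 3), (false, 4), (true, 3), (true, 4)} : Finset (Bool × ℕ)) ×ˢ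
    Finset.range (h + 1)

theorem card_Gs (h : ℕ) : (Gs h).card = 5 * (h + 1) := by
  rw [Gs, Finset.card_product, Finset.card_range]
  rfl

theorem mem_Gs {h : ℕ} {s : Bool} {k r : ℕ} :
    ((s, k), r) ∈ Gs h ↔ ((s = false ∧ k = 2) ∨ k = 3 ∨ k = 4) ∧ r ≤ h := by
  cases s <;> simp [Gs]

/-- The group of a heavy vertex. -/
def grp (a : WV) : (Bool × ℕ) × ℕ := ((if a.2.1 = 2 then false else a.1, a.2.1), a.2.2.1)

theorem wt_pos {h T N k0 : ℕ} {a : WV} : 0 < wt h T N k0 a ↔ valid h T N a.2 := by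
  unfold wt
  split_ifs with h1 <;> simp [h1]

/-- The block relation read off a pair of vertices. -/
def WR (h T : ℕ) (E : ℕ → ℕ → ℕ → Prop) (a b : WV) : Prop :=
  WA h T (E a.2.2.1 a.2.2.2 b.2.2.2) a b

theorem whole_sound {h N k0 : ℕ} {E : ℕ → ℕ → ℕ → Prop}
    (H : WYes (wt h (2 ^ h) N k0) (WR h (2 ^ h) E) (KK h k0)) :
    ∃ c < 2 ^ h, ∃ I ⊆ Finset.range N, (∀ u ∈ I, ∀ v ∈ I, ¬ E c u v) ∧ 2 * N ≤ k0 + I.card := by
  classical
  obtain ⟨X, hX, hac⟩ := H
  set T := 2 ^ h with hT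
  have hT0 : 0 < T := by positivity
  set R : WV → WV → Prop := fun a b => (0 < wt h T N k0 a ∧ a ∉ X) ∧
    (0 < wt h T N k0 b ∧ b ∉ X) ∧ WR h T E a b with hR
  set al : Bool → HV → Prop := fun s u => 0 < wt h T N k0 (s, u) ∧ (s, u) ∉ X with hal
  have m0 : ∀ u v, HR h T (dd h) (al false) u v → R (false, u) (false, v) :=
    fun u v huv => ⟨huv.1, huv.2.1, Or.inl ⟨rfl, rfl, huv.2.2⟩⟩
  have m1 : ∀ u v, HR h T (dd h) (al true) u v → R (true, v) (true, u) :=
    fun u v huv => ⟨huv.2.1, huv.1, Or.inr (Or.inl ⟨rfl, rfl, huv.2.2⟩)⟩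
  have hac' : ∀ s u, ¬ TransGen (HR h T (dd h) (al s)) u u := by
    intro s u hu
    cases s
    · exact hac _ (tg_map (fun u => (false, u)) m0 hu)
    · exact hac _ (tg_map_rev (fun u => (true, u)) m1 hu)
  have hterm : ∀ s u, valid h T N u → u.1 ≤ 1 → al s u := by
    intro s u hu hk
    refine ⟨wt_pos.2 hu, fun hm => ?_⟩
    have h1 := Finset.single_le_sum (f := wt h T N k0) (fun _ _ => Nat.zero_le _) hm
    have h2 : wt h T N k0 (s, u) = KK h k0 + 1 := by simp [wt, hu, hk]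
    omega
  have hA : ∀ s, ∀ r ≤ h + 1, al s (0, r, 0) := fun s r hr =>
    hterm s _ (Or.inl ⟨rfl, hr, rfl⟩) (by simp)
  have hZ : ∀ s, ∀ r ≤ h, al s (1, r, 0) := fun s r hr =>
    hterm s _ (Or.inr (Or.inl ⟨Or.inl rfl, hr, rfl⟩)) (by simp)
  set heavy := X.filter fun a => valid h T N a.2 ∧ 2 ≤ a.2.1 ∧ a.2.1 ≤ 4 with hheavy
  set light := X.filter fun a => valid h T N a.2 ∧ 5 ≤ a.2.1 with hlight
  have hsum : heavy.card * (k0 + 1) + light.card ≤ KK h k0 := by
    refine le_trans ?_ hX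
    have hdisj : Disjoint heavy light := by
      rw [Finset.disjoint_left]
      intro a h1 h2
      have := (Finset.mem_filter.1 h1).2
      have := (Finset.mem_filter.1 h2).2
      omega
    refine le_trans ?_ (Finset.sum_le_sum_of_subset (s := heavy ∪ light)
      (Finset.union_subset (Finset.filter_subset _ _) (Finset.filter_subset _ _)))
    rw [Finset.sum_union hdisj]
    refine add_le_add ?_ ?_
    · refine le_trans (by simp) (Finset.card_nsmul_le_sum heavy _ (k0 + 1) fun a ha => ?_)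
      obtain ⟨h1, h2, h3⟩ := (Finset.mem_filter.1 ha).2
      have h4 : ¬ a.2.1 ≤ 1 := by omega
      simp [wt, h1, h3, h4]
    · refine le_trans (by simp) (Finset.card_nsmul_le_sum light _ 1 fun a ha => ?_)
      exact wt_pos.2 (Finset.mem_filter.1 ha).2.1
  have vL : ∀ r ≤ h, valid h T N (2, r, 0) := fun r hr => Or.inr (Or.inl ⟨Or.inr rfl, hr, rfl⟩)
  have vP : ∀ k r i, (k = 3 ∨ k = 4) → r ≤ h → i < T → valid h T N (k, r, i) :=
    fun k r i hk hr hi => Or.inr (Or.inr (Or.inl ⟨hk, hr, hi⟩))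
  have hdead : ∀ s u, valid h T N u → ¬ al s u → (s, u) ∈ X := by
    intro s u hu hd
    by_contra hcon
    exact hd ⟨wt_pos.2 hu, hcon⟩
  have hsurj : Set.SurjOn grp heavy (Gs h) := by
    rintro ⟨⟨s, k⟩, r⟩ hg
    obtain ⟨hk, hr⟩ := mem_Gs.1 (Finset.mem_coe.1 hg)
    rcases hk with ⟨rfl, rfl⟩ | hk
    · obtain ⟨s, hs⟩ : ∃ s, (s, 2, r, 0) ∈ X := by
        by_contra hcon
        push Not at hcon
        have h1 : ∀ s, R (s, 2, r, 0) (!s, 2, r, 0) := fun s =>
          ⟨⟨wt_pos.2 (vL r hr), hcon _⟩, ⟨wt_pos.2 (vL r hr), hcon _⟩,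
            Or.inr (Or.inr (Or.inl ⟨by simp, rfl, rfl, rfl⟩))⟩
        exact hac _ ((TransGen.single (h1 false)).tail (h1 true))
      exact ⟨(s, 2, r, 0), Finset.mem_coe.2 (Finset.mem_filter.2 ⟨hs, vL r hr, by simp, by simp⟩),
        by simp [grp]⟩
    · obtain ⟨i, hi, hi'⟩ := path_dead (hac' s) hT0 (hA s) (hZ s) hk hr
      refine ⟨(s, k, r, i), Finset.mem_coe.2 (Finset.mem_filter.2
        ⟨hdead s _ (vP k r i hk hr hi) hi', vP k r i hk hr hi, by dsimp only; omega⟩), ?_⟩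
      have : k ≠ 2 := by omega
      simp [grp, this]
  have hmaps : Set.MapsTo grp heavy (Gs h) := by
    rintro ⟨s, k, r, i⟩ ha
    obtain ⟨h1, h2, h3⟩ := (Finset.mem_filter.1 (Finset.mem_coe.1 ha)).2
    unfold valid at h1
    dsimp only at h1 h2 h3
    refine Finset.mem_coe.2 (mem_Gs.2 ⟨?_, by dsimp only; omega⟩)
    by_cases hk : k = 2
    · simp [hk]
    · right
      dsimp only
      omega
  have hge : (Gs h).card ≤ heavy.card := Finset.card_le_card_of_surjOn grp hsurj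
  rw [card_Gs] at hge
  have hle : heavy.card ≤ 5 * (h + 1) := by
    by_contra hcon
    have := Nat.mul_le_mul_right (k0 + 1) (show 5 * (h + 1) + 1 ≤ heavy.card by omega)
    rw [add_mul] at this
    unfold KK at hsum
    omega
  have hlk : light.card ≤ k0 := by
    have := Nat.mul_le_mul_right (k0 + 1) hge
    unfold KK at hsum
    omega
  have hinj : Set.InjOn grp heavy :=
    Finset.injOn_of_surjOn_of_card_le grp hmaps hsurj (by rw [card_Gs]; exact hle)
  have hone : ∀ s k r i i', (k = 3 ∨ k = 4) → r ≤ h → i < T → i' < T → ¬ al s (k, r, i) →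
      ¬ al s (k, r, i') → i = i' := by
    intro s k r i i' hk hr hi hi' h1 h2
    have := hinj (x₁ := (s, k, r, i)) (x₂ := (s, k, r, i'))
      (Finset.mem_coe.2 (Finset.mem_filter.2
        ⟨hdead s _ (vP k r i hk hr hi) h1, vP k r i hk hr hi, by dsimp only; omega⟩))
      (Finset.mem_coe.2 (Finset.mem_filter.2
        ⟨hdead s _ (vP k r i' hk hr hi') h2, vP k r i' hk hr hi', by dsimp only; omega⟩)) rfl
    simpa using this
  let x : ℕ → ℕ := fun r => if ((false, 2, r, 0) : WV) ∈ X then 0 else 1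
  let x' : ℕ → ℕ := fun r => if ((false, 2, r, 0) : WV) ∈ X then 1 else 0
  have hx : ∀ r ≤ h, x r ≠ 0 → al false (2, r, 0) := fun r hr h1 =>
    ⟨wt_pos.2 (vL r hr), fun h2 => h1 (if_pos h2)⟩
  have hx' : ∀ r ≤ h, x' r ≠ 0 → al true (2, r, 0) := by
    intro r hr h1
    refine ⟨wt_pos.2 (vL r hr), fun h2 => ?_⟩
    have h3 : ((false, 2, r, 0) : WV) ∈ X := by
      by_contra h3
      exact h1 (if_neg h3)
    have := hinj (x₁ := (false, 2, r, 0)) (x₂ := (true, 2, r, 0))
      (Finset.mem_coe.2 (Finset.mem_filter.2 ⟨h3, vL r hr, by simp, by simp⟩))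
      (Finset.mem_coe.2 (Finset.mem_filter.2 ⟨h2, vL r hr, by simp, by simp⟩)) (by simp [grp])
    simp at this
  have hdual : vv h x h + vv h x' h + 1 = T := vv_dual h x x' (fun r => by
    by_cases h3 : ((false, 2, r, 0) : WV) ∈ X <;> simp [x, x', h3]) h le_rfl
  have S0 := half_sound (hac' false) (hA false) (hZ false) (hone false) x hx (vv h x) rfl
    (vv_step h x) (vv_lt h x)
  have S1 := half_sound (hac' true) (hA true) (hZ true) (hone true) x' hx' (vv h x') rfl
    (vv_step h x') (vv_lt h x')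
  obtain ⟨u1, f1, l1, w1⟩ := S0 h (by omega)
  obtain ⟨u2, f2, l2, w2⟩ := S0 (h + 1) le_rfl
  obtain ⟨u3, f3, l3, w3⟩ := S1 h (by omega)
  obtain ⟨u4, f4, l4, w4⟩ := S1 (h + 1) le_rfl
  rw [vv_top] at f2 f4
  set c := vv h x h with hc
  set c' := vv h x' h with hc'
  replace w1 := rtg_map (fun u => (false, u)) m0 w1
  replace w2 := rtg_map (fun u => (false, u)) m0 w2
  replace w3 := rtg_map_rev (fun u => (true, u)) m1 w3
  replace w4 := rtg_map_rev (fun u => (true, u)) m1 w4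
  have t1 : R (true, 0, h, 0) (false, 0, h + 1, 0) :=
    ⟨hA true h (by omega), hA false _ le_rfl,
      Or.inr (Or.inr (Or.inr (Or.inr (Or.inr ⟨rfl, rfl, rfl, rfl, by dsimp only; omega⟩))))⟩
  have t2 : R (true, 0, h + 1, 0) (false, 0, h, 0) :=
    ⟨hA true _ le_rfl, hA false h (by omega),
      Or.inr (Or.inr (Or.inr (Or.inr (Or.inr ⟨rfl, rfl, rfl, rfl, by dsimp only; omega⟩))))⟩
  have t3 : R (false, 0, h, 0) (false, 0, h + 1, 0) :=
    m0 _ _ ⟨hA false h (by omega), hA false _ le_rfl, Or.inl ⟨Or.inl rfl, rfl, rfl⟩⟩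
  have vB : ∀ k j v, (k = 5 ∨ k = 6) → j < T → v < N → valid h T N (k, j, v) :=
    fun k j v hk hj hv => Or.inr (Or.inr (Or.inr ⟨hk, hj, hv⟩))
  have in5 : ∀ s u j v, al s u → feeds (h + 1) j u → al s (5, j, v) →
      HR h T (dd h) (al s) u (5, j, v) := fun s u j v h1 h2 h3 =>
    ⟨h1, h3, by unfold HA; simp [h2]⟩
  have in6 : ∀ s u j v, al s u → feeds h j u → al s (6, j, v) →
      HR h T (dd h) (al s) u (6, j, v) := fun s u j v h1 h2 h3 =>
    ⟨h1, h3, by unfold HA; simp [h2]⟩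
  have in56 : ∀ s j v, al s (5, j, v) → al s (6, j, v) →
      HR h T (dd h) (al s) (5, j, v) (6, j, v) := fun s j v h1 h3 =>
    ⟨h1, h3, by unfold HA; simp⟩
  have cr6 : ∀ v, al false (6, c, v) → al true (6, c', v) → R (false, 6, c, v) (true, 6, c', v) :=
    fun v h1 h2 => ⟨h1, h2, Or.inr (Or.inr (Or.inr (Or.inl ⟨rfl, rfl, rfl, rfl, hdual, rfl⟩)))⟩
  have cA : ∀ v, al false (5, c, v) → al false (6, c, v) → al true (6, c', v) → False := by
    intro v h1 h2 h3
    exact hac _ (TransGen.tail' (((((w2.tail (m0 _ _ (in5 _ _ _ _ l2 f2 h1))).tail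
      (m0 _ _ (in56 _ _ _ h1 h2))).tail (cr6 v h2 h3)).tail
      (m1 _ _ (in6 _ _ _ _ l3 f3 h3))).trans w3) t1)
  have cB : ∀ v, al false (6, c, v) → al true (6, c', v) → al true (5, c', v) → False := by
    intro v h1 h2 h3
    exact hac _ (TransGen.tail' (((((w1.tail (m0 _ _ (in6 _ _ _ _ l1 f1 h1))).tail
      (cr6 v h1 h2)).tail (m1 _ _ (in56 _ _ _ h3 h2))).tail
      (m1 _ _ (in5 _ _ _ _ l4 f4 h3))).trans w4) t2)
  have cC : ∀ u v, al false (5, c, u) → al true (5, c', v) → ¬ E c u v := by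
    intro u v h1 h2 h3
    have h4 : R (false, 5, c, u) (true, 5, c', v) := ⟨h1, h2,
      Or.inr (Or.inr (Or.inr (Or.inr (Or.inl ⟨rfl, rfl, rfl, rfl, hdual, h3⟩))))⟩
    exact hac _ (TransGen.tail' (((((w2.tail (m0 _ _ (in5 _ _ _ _ l2 f2 h1))).tail h4).tail
      (m1 _ _ (in5 _ _ _ _ l4 f4 h2))).trans w4).tail t2) t3)
  refine ⟨c, by omega, (Finset.range N).filter fun v => al false (5, c, v) ∧ al true (5, c', v),
    Finset.filter_subset _ _, fun u hu v hv =>
      cC u v (Finset.mem_filter.1 hu).2.1 (Finset.mem_filter.1 hv).2.2, ?_⟩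
  have hfib : light.card = ∑ v ∈ Finset.range N, (light.filter fun a => a.2.2.2 = v).card := by
    refine Finset.card_eq_sum_card_fiberwise fun a ha => ?_
    obtain ⟨h1, h2⟩ := (Finset.mem_filter.1 (Finset.mem_coe.1 ha)).2
    unfold valid at h1
    exact Finset.mem_coe.2 (Finset.mem_range.2 (by omega))
  rw [Finset.card_filter]
  refine le_trans ?_ (Nat.add_le_add_right hlk _)
  rw [hfib, ← Finset.sum_add_distrib]
  refine le_trans (by simp [mul_comm]) (Finset.card_nsmul_le_sum (Finset.range N) _ 2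
    fun v hv => ?_)
  have hv' := Finset.mem_range.1 hv
  have hmem : ∀ s k j, (k = 5 ∨ k = 6) → j < T → ¬ al s (k, j, v) →
      ((s, k, j, v) : WV) ∈ light.filter fun a => a.2.2.2 = v := fun s k j hk hj hd =>
    Finset.mem_filter.2 ⟨Finset.mem_filter.2 ⟨hdead s _ (vB k j v hk hj hv') hd,
      vB k j v hk hj hv', by dsimp only; omega⟩, rfl⟩
  have g1 := hmem false 5 c (Or.inl rfl) (by omega)
  have g2 := hmem false 6 c (Or.inr rfl) (by omega)
  have g3 := hmem true 6 c' (Or.inr rfl) (by omega)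
  have g4 := hmem true 5 c' (Or.inl rfl) (by omega)
  have two : ∀ a b : WV, a ≠ b → a ∈ light.filter (fun a => a.2.2.2 = v) →
      b ∈ light.filter (fun a => a.2.2.2 = v) → 2 ≤ (light.filter fun a => a.2.2.2 = v).card :=
    fun a b hab ha hb => Finset.one_lt_card.2 ⟨a, ha, b, hb, hab⟩
  by_cases a1 : al false (5, c, v)
  · by_cases a4 : al true (5, c', v)
    · rw [if_pos ⟨a1, a4⟩]
      refine Nat.succ_le_succ (Finset.card_pos.2 ?_)
      by_cases a2 : al false (6, c, v)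
      · exact ⟨_, g3 (cA v a1 a2)⟩
      · exact ⟨_, g2 a2⟩
    · refine le_trans ?_ (Nat.le_add_right _ _)
      by_cases a2 : al false (6, c, v)
      · exact two _ _ (by simp) (g3 (cA v a1 a2)) (g4 a4)
      · exact two _ _ (by simp) (g2 a2) (g4 a4)
  · refine le_trans ?_ (Nat.le_add_right _ _)
    by_cases a2 : al false (6, c, v)
    · by_cases a3 : al true (6, c', v)
      · exact two _ _ (by simp) (g1 a1) (g4 (cB v a2 a3))
      · exact two _ _ (by simp) (g1 a1) (g3 a3)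
    · exact two _ _ (by simp) (g1 a1) (g2 a2)

theorem sum_union_le' {α : Type} [DecidableEq α] (s t : Finset α) (f : α → ℕ) :
    ∑ a ∈ s ∪ t, f a ≤ ∑ a ∈ s, f a + ∑ a ∈ t, f a := by
  rw [← Finset.sum_union_inter]
  exact Nat.le_add_right _ _

theorem sum_image_le' {α β : Type} [DecidableEq β] (s : Finset α) (g : α → β) (f : β → ℕ) (m : ℕ)
    (hm : ∀ a ∈ s, f (g a) ≤ m) : ∑ b ∈ s.image g, f b ≤ s.card * m := by
  refine le_trans (Finset.sum_le_card_nsmul _ _ m fun b hb => ?_) ?_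
  · obtain ⟨a, ha, rfl⟩ := Finset.mem_image.1 hb
    exact hm a ha
  · exact Nat.mul_le_mul_right m Finset.card_image_le

theorem whole_complete {h N k0 : ℕ} {E : ℕ → ℕ → ℕ → Prop} {c : ℕ} (hc : c < 2 ^ h)
    {I : Finset ℕ} (hI : I ⊆ Finset.range N) (hind : ∀ u ∈ I, ∀ v ∈ I, ¬ E c u v)
    (hk : 2 * N ≤ k0 + I.card) : WYes (wt h (2 ^ h) N k0) (WR h (2 ^ h) E) (KK h k0) := by
  classical
  set T := 2 ^ h with hT
  let xs : Bool → ℕ → ℕ := fun s r => if s then 1 - c / 2 ^ r % 2 else c / 2 ^ r % 2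
  let ι : ℕ → ℕ := fun q => if q ∈ I then 0 else 1
  have hι : ∀ q, ι q = 0 ↔ q ∈ I := fun q => by by_cases hq : q ∈ I <;> simp [ι, hq]
  have hxs : ∀ r, xs false r = 0 ↔ xs true r ≠ 0 := fun r => by
    simp only [xs, Bool.false_eq_true, if_false, if_true]
    omega
  have hc0 : vv h (xs false) h = c := (vv_bits h c h le_rfl).trans (Nat.mod_eq_of_lt hc)
  have hdual : c + vv h (xs true) h + 1 = T := hc0 ▸ vv_dual h _ _ hxs h le_rfl
  set c' := vv h (xs true) h with hc'
  let pick : (Bool × ℕ) × ℕ → WV := fun g =>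
    if g.1.2 = 2 then (decide (xs false g.2 ≠ 0), 2, g.2, 0)
    else if g.1.2 = 3 then (g.1.1, 3, g.2, vv h (xs g.1.1) g.2)
    else (g.1.1, 4, g.2, vv h (xs g.1.1) (g.2 + 1))
  let X : Finset WV := (Gs h).image pick ∪ (I.image (fun v => (false, 6, c, v)) ∪
    ((Finset.range N \ I).image (fun v => (false, 5, c, v)) ∪
      (Finset.range N \ I).image (fun v => (true, 5, c', v))))
  have hw1 : ∀ a : WV, 2 ≤ a.2.1 → wt h T N k0 a ≤ k0 + 1 := by
    intro a ha
    unfold wt
    split_ifs <;> omega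
  have hw2 : ∀ a : WV, 5 ≤ a.2.1 → wt h T N k0 a ≤ 1 := by
    intro a ha
    unfold wt
    split_ifs <;> omega
  refine ⟨X, ?_, ?_⟩
  · have h5 := Finset.card_sdiff_add_card_eq_card hI
    rw [Finset.card_range] at h5
    refine (sum_union_le' _ _ _).trans ((Nat.add_le_add_left ((sum_union_le' _ _ _).trans
      (Nat.add_le_add_left (sum_union_le' _ _ _) _)) _).trans ?_)
    refine (add_le_add (sum_image_le' _ _ _ (k0 + 1) fun g _ => hw1 _ ?_)
      (add_le_add (sum_image_le' _ _ _ 1 fun g _ => hw2 _ (by simp))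
        (add_le_add (sum_image_le' _ _ _ 1 fun g _ => hw2 _ (by simp))
          (sum_image_le' _ _ _ 1 fun g _ => hw2 _ (by simp))))).trans ?_
    · simp only [pick]
      split_ifs <;> simp
    · rw [card_Gs]
      unfold KK
      omega
  · have hdel : ∀ s u, valid h T N u → (s, u) ∉ X →
        ¬ del (xs s) (vv h (xs s)) (vv h (xs s) h) ι u := by
      rintro s ⟨k, p, q⟩ hu hX hd
      apply hX
      unfold valid at hu
      dsimp only at hu
      rcases hd with ⟨rfl, h1⟩ | ⟨rfl, h1⟩ | ⟨rfl, h1⟩ | ⟨rfl, h1, h2⟩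
      · refine Finset.mem_union_left _ (Finset.mem_image.2 ⟨((false, 2), p),
          mem_Gs.2 ⟨by simp, by omega⟩, ?_⟩)
        obtain rfl : q = 0 := by omega
        have := hxs p
        dsimp only at h1
        cases s
        · simp [pick, h1]
        · have h3 : xs false p ≠ 0 := fun h4 => this.1 h4 h1
          simp [pick, h3]
      · refine Finset.mem_union_left _ (Finset.mem_image.2 ⟨((s, 3), p),
          mem_Gs.2 ⟨by simp, by omega⟩, ?_⟩)
        dsimp only at h1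
        simp [pick, h1]
      · refine Finset.mem_union_left _ (Finset.mem_image.2 ⟨((s, 4), p),
          mem_Gs.2 ⟨by simp, by omega⟩, ?_⟩)
        dsimp only at h1
        simp [pick, h1]
      · dsimp only at h1 h2
        have h3 : q ∈ Finset.range N \ I := Finset.mem_sdiff.2
          ⟨Finset.mem_range.2 (by omega), fun h4 => h2 ((hι q).2 h4)⟩
        refine Finset.mem_union_right _ (Finset.mem_union_right _ ?_)
        cases s
        · exact Finset.mem_union_left _ (Finset.mem_image.2 ⟨q, h3, by rw [h1, hc0]⟩)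
        · exact Finset.mem_union_right _ (Finset.mem_image.2 ⟨q, h3, by rw [h1]⟩)
    let L : Bool → HV → ℤ := fun s => lab h (dd h) (xs s) (vv h (xs s)) (vv h (xs s) h) ι
    have hhalf : ∀ s u v, valid h T N u → (s, u) ∉ X → valid h T N v → (s, v) ∉ X →
        HA h T (dd h v.2.1) u v → L s u < L s v ∨ (L s u = L s v ∧
          (rank h u < rank h v ∨ (rank h u = rank h v ∧ u.2.2 < v.2.2))) := by
      intro s u v hu hu' hv hv' huv
      refine half_complete (dd_self h) (vv_step h _) (vv_lt h _) rfl ?_ ?_ (hdel s u hu hu')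
        (hdel s v hv hv') huv
      · unfold valid at hu; omega
      · unfold valid at hu; omega
    refine acyclic_of_pot (α := ℤ ×ₗ ℤ ×ₗ ℤ) (fun a => if a.1 then
      toLex (6 * h + 2 - L true a.2, toLex (-rank h a.2, -(a.2.2.2 : ℤ)))
      else toLex (L false a.2, toLex (rank h a.2, (a.2.2.2 : ℤ)))) ?_
    rintro ⟨s, k, p, q⟩ ⟨s', k', p', q'⟩ ⟨⟨ha, ha'⟩, ⟨hb, hb'⟩, hab⟩
    rw [wt_pos] at ha hb
    rcases hab with ⟨rfl, rfl, hab⟩ | ⟨rfl, rfl, hab⟩ | ⟨h1, rfl, rfl, rfl⟩ |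
      ⟨rfl, rfl, rfl, rfl, h1, rfl⟩ | ⟨rfl, rfl, rfl, rfl, h1, h2⟩ | ⟨rfl, rfl, rfl, rfl, h1⟩
    · have := hhalf false _ _ ha ha' hb hb' hab
      simp only [Bool.false_eq_true, if_false, Prod.Lex.toLex_lt_toLex]
      dsimp only at this
      omega
    · have := hhalf true _ _ hb hb' ha ha' hab
      simp only [if_true, Prod.Lex.toLex_lt_toLex]
      dsimp only at this
      omega
    · exfalso
      have d1 := (del2 _ _ _ _ _ _).1 (hdel _ _ ha ha')
      have d2 := (del2 _ _ _ _ _ _).1 (hdel _ _ hb hb')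
      have := hxs p
      cases s <;> cases s'
      · exact h1 rfl
      · dsimp only at d1 d2
        simp only [xs, Bool.false_eq_true, if_false, if_true] at d1 d2
        omega
      · dsimp only at d1 d2
        simp only [xs, Bool.false_eq_true, if_false, if_true] at d1 d2
        omega
      · exact h1 rfl
    · simp only [Bool.false_eq_true, if_false, if_true, Prod.Lex.toLex_lt_toLex]
      left
      have e1 := (lab6 h (dd h) (xs false) (vv h (xs false)) (vv h (xs false) h) ι p q).1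
      have e2 := (lab6 h (dd h) (xs true) (vv h (xs true)) (vv h (xs true) h) ι p' q).1
      have e3 : ¬ (p = c ∧ ι q = 0) := by
        rintro ⟨rfl, h3⟩
        exact ha' (Finset.mem_union_right _ (Finset.mem_union_left _
          (Finset.mem_image.2 ⟨q, (hι q).1 h3, rfl⟩)))
      simp only [L]
      dsimp only at h1
      omega
    · simp only [Bool.false_eq_true, if_false, if_true, Prod.Lex.toLex_lt_toLex]
      left
      have e1 := (lab5 h (dd h) (xs false) (vv h (xs false)) (vv h (xs false) h) ι p q).1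
      have e2 := (lab5 h (dd h) (xs true) (vv h (xs true)) (vv h (xs true) h) ι p' q').1
      have d1 := (del5 _ _ _ _ _ _).1 (hdel _ _ ha ha')
      have d2 := (del5 _ _ _ _ _ _).1 (hdel _ _ hb hb')
      have e3 : ¬ (p = c ∧ ι q = 0 ∧ ι q' = 0) := by
        rintro ⟨rfl, h3, h4⟩
        exact hind q ((hι q).1 h3) q' ((hι q').1 h4) h2
      simp only [L]
      dsimp only at h1
      omega
    · simp only [Bool.false_eq_true, if_false, if_true, Prod.Lex.toLex_lt_toLex]
      left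
      have e1 := (lab0 h (dd h) (xs true) (vv h (xs true)) (vv h (xs true) h) ι p q).1
      have e2 := (lab0 h (dd h) (xs false) (vv h (xs false)) (vv h (xs false) h) ι p' q').1
      simp only [L]
      dsimp only at h1
      omega

end Pool.Agent.Lib.MP_da63d3_lc
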